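import Mathlib
import Pool.Agent.Helper292.SP.Lib

set_option autoImplicit false

open Cardinal Set Pool.Agent.Helper292.SP

namespace Pool.Agent.R578.AO

variable {Q : Par}

/-! ### Preservation of cardinals -/

theorem preserved_gen {X Y : Type} (hXY : #X < #Y)
    (hcase : #X < Q.θ ∨ (#X ≤ Q.c ∧ Q.c < #Y) ∨ (2 : Cardinal.{0}) ^ Q.c < #Y) (p : Cond Q) :
    p ∈ fnot (fex fun F : X → Y → Set (Cond Q) => fand (IsFun F) (Covers F fun _ => Set.univ)) := by
  refine not_fex fun q hq F hF => ?_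
  rcases hcase with hX | ⟨hX, hY⟩ | hY
  · obtain ⟨r, hr, f, hf⟩ := decide_fun hX q (fun r x y => r ∈ meets (F x y))
      (fun _ _ _ _ h hr => down_meets h hr) (IsFun_tot F q hF.1)
    have hns : ¬ Function.Surjective f := by
      intro hsurj
      exact absurd (Cardinal.mk_le_of_surjective hsurj) (not_le.2 hXY)
    obtain ⟨y, hy⟩ := not_forall.1 hns
    obtain ⟨r1, hr1, h1⟩ := mem_fimp.1 (hF.2 y) r hr (fun s _ => ⟨s, le_rfl, s, Set.mem_univ _, le_rfl⟩)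
    obtain ⟨r2, hr2, x, hx⟩ := mem_fex.1 h1 r1 le_rfl
    exact hy ⟨x, IsFun_fun F q hF.1 r2 (hr2.trans (hr1.trans hr)) x _ _ (down_meets (hf x) (hr2.trans hr1)) hx⟩
  · have hYM : #Q.M ≤ #Y := by
      rw [Q.hM]
      exact Order.succ_le_of_lt hY
    obtain ⟨g⟩ := (Cardinal.le_def _ _).1 hYM
    obtain ⟨s, h, β, hβ⟩ := reg q (T := X) hX (fun r x m => r ∈ meets (F x (g m)))
      (fun _ _ _ _ h hr => down_meets h hr)
      (fun r hr x m m' h h' => g.injective (IsFun_fun F q hF.1 r hr x _ _ h h'))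
    have hle : q.lower s h ≤ q := ⟨h, le_rfl⟩
    obtain ⟨r1, hr1, h1⟩ := mem_fimp.1 (hF.2 (g β)) (q.lower s h) hle
      (fun s _ => ⟨s, le_rfl, s, Set.mem_univ _, le_rfl⟩)
    obtain ⟨r2, hr2, x, hx⟩ := mem_fex.1 h1 r1 le_rfl
    exact absurd (hβ r2 (hr2.trans hr1) x β hx) (lt_irrefl β)
  · refine no_onto_big hXY hY q (fun r x y => r ∈ meets (F x y)) (fun _ _ _ _ h hr => down_meets h hr)
      (IsFun_fun F q hF.1) ?_
    intro y r hr
    obtain ⟨r1, hr1, h1⟩ := mem_fimp.1 (hF.2 y) r hr (fun s _ => ⟨s, le_rfl, s, Set.mem_univ _, le_rfl⟩)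
    obtain ⟨r2, hr2, x, hx⟩ := mem_fex.1 h1 r1 le_rfl
    exact ⟨r2, hr2.trans hr1, x, hx⟩

/-! ### Collapsing `2 ^ c` to `c⁺` -/

/-- the cardinality of an initial segment of `M` -/
theorem exists_far {T : Type} (η : Q.M × T → Q.M) (hη : Function.Injective η) (δ : Q.M) :
    ∃ ξ, ∀ t, δ ≤ η (ξ, t) := by
  by_contra hcon
  push Not at hcon
  choose t ht using hcon
  have h1 : Function.Injective fun ξ : Q.M => (⟨η (ξ, t ξ), ht ξ⟩ : Iio δ) := by
    intro a b hab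
    have h2 : η (a, t a) = η (b, t b) := congrArg Subtype.val hab
    exact congrArg Prod.fst (hη h2)
  have h2 := Cardinal.mk_le_of_injective h1
  have h3 := h2.trans (Q.hMs δ)
  rw [Q.hM] at h3
  exact absurd h3 (not_le.2 (Order.lt_succ Q.c))

theorem exists_eta {T : Type} (hT : #T ≤ Q.c) : ∃ η : Q.M × T → Q.M, Function.Injective η := by
  have h0 : ℵ₀ ≤ Q.c := Q.hθ.trans Q.hθc
  have h1 : #(Q.M × T) ≤ #Q.M := by
    rw [Cardinal.mk_prod, Cardinal.lift_id, Cardinal.lift_id]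
    have h2 : #T ≤ #Q.M := hT.trans (by rw [Q.hM]; exact (Order.lt_succ _).le)
    have h3 : ℵ₀ ≤ #Q.M := by
      rw [Q.hM]; exact h0.trans (Order.lt_succ _).le
    calc #Q.M * #T ≤ #Q.M * #Q.M := mul_le_mul' le_rfl h2
      _ = #Q.M := Cardinal.mul_eq_self h3
  obtain ⟨g⟩ := (Cardinal.le_def _ _).1 h1
  exact ⟨g, g.injective⟩

/-- a coding of truth values by elements of `M` -/
theorem exists_code (Q : Par) : ∃ code : Q.M → Prop, ∀ (t : Q.M) (b : Prop), ∃ m, t ≤ m ∧ (code m ↔ b) := by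
  classical
  have h0 : ℵ₀ ≤ Q.c := Q.hθ.trans Q.hθc
  obtain ⟨η, hη⟩ := exists_eta (Q := Q) (T := Bool) (by
    rw [Cardinal.mk_bool]
    exact_mod_cast (Cardinal.natCast_lt_aleph0 (n := 2)).le.trans h0)
  refine ⟨fun m => ∃ ξ, η (ξ, true) = m, fun t b => ?_⟩
  obtain ⟨ξ, hξ⟩ := exists_far (Q := Q) (T := Bool) η hη t
  by_cases hb : b
  · exact ⟨η (ξ, true), hξ true, ⟨fun _ => hb, fun _ => ⟨ξ, rfl⟩⟩⟩
  · refine ⟨η (ξ, false), hξ false, ⟨fun ⟨ξ', h⟩ => ?_, fun h => absurd h hb⟩⟩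
    have := congrArg Prod.snd (hη h)
    simp at this

/-- Extend a condition so that its height is large and it contains a given vertex. -/
theorem ext_height (p : Cond Q) (a : Q.K) (δ : Q.M) : ∃ q ≤ p, a ∈ q.s.Y ∧ δ < q.s.dl := by
  obtain ⟨q, hq, ha⟩ := ext_vertex p a
  obtain ⟨s', hs', h⟩ := ext_level q.s δ
  exact ⟨q.lower s' hs', le_trans ⟨hs', le_rfl⟩ hq, hs'.1 (q.sub ha), h⟩

/-- The generic values of the rank function of `a` at the levels `η (ξ, t)` can be prescribed for some `ξ`. -/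
theorem ext_code {T : Type} (hT : #T ≤ Q.c) (η : Q.M × T → Q.M) (hη : Function.Injective η)
    (code : Q.M → Prop) (hcode : ∀ (t : Q.M) (b : Prop), ∃ m, t ≤ m ∧ (code m ↔ b)) (a : Q.K) (p : Cond Q)
    (x : T → Prop) : ∃ q ≤ p, ∃ ξ, a ∈ q.s.Y ∧ (∀ t, η (ξ, t) < q.s.dl) ∧ ∀ t, (code (q.s.ga a (η (ξ, t))) ↔ x t) := by
  classical
  obtain ⟨q, hq, ha, -⟩ := ext_height p a p.s.dl
  obtain ⟨ξ, hξ⟩ := exists_far η hη q.s.dl
  obtain ⟨β, hβ⟩ := big_lb_bound hT (fun t => η (ξ, t))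
  choose m hm1 hm2 using fun t => hcode (q.s.t a) (x t)
  have hmm : ∃ mm : Q.M → Q.M, (∀ ζ, q.s.t a ≤ mm ζ) ∧ ∀ t, (code (mm (η (ξ, t))) ↔ x t) := by
    refine ⟨fun ζ => if h : ∃ t, ζ = η (ξ, t) then m h.choose else q.s.t a, fun ζ => ?_, fun t => ?_⟩
    · by_cases h : ∃ t, ζ = η (ξ, t)
      · simp only [dif_pos h]
        exact hm1 _
      · simp only [dif_neg h]
        exact le_rfl
    · have h : ∃ t', η (ξ, t) = η (ξ, t') := ⟨t, rfl⟩
      simp only [dif_pos h]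
      have h2 : h.choose = t := (congrArg Prod.snd (hη h.choose_spec)).symm
      rw [h2]
      exact hm2 t
  obtain ⟨mm, hmm1, hmm2⟩ := hmm
  let ga' : Q.K → Q.M → Q.M := fun b ζ =>
    if ζ < q.s.dl then q.s.ga b ζ else if b = a then mm ζ else q.s.t b
  let s' : Big Q :=
    { Y := q.s.Y
      dl := max q.s.dl β
      ga := ga'
      t := q.s.t
      hY := q.s.hY
      hlev := fun b hb => (q.s.hlev b hb).trans_le (le_max_left _ _) }
  have hs' : s' ≤ q.s := by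
    refine ⟨subset_rfl, le_max_left _ _, fun b _ ζ hζ => ?_, fun b _ ζ hζ _ => ?_, fun b _ => le_rfl⟩
    · show ga' b ζ = _
      simp only [ga', if_pos hζ]
    · show q.s.t b ≤ ga' b ζ
      simp only [ga', if_neg (not_lt.2 hζ)]
      by_cases h : b = a
      · rw [if_pos h, h]
        exact hmm1 _
      · rw [if_neg h]
  refine ⟨q.lower s' hs', le_trans ⟨hs', le_rfl⟩ hq, ξ, ha, fun t => (hβ t).trans_le (le_max_right _ _), fun t => ?_⟩
  show code (ga' a (η (ξ, t))) ↔ x t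
  have h1 : ga' a (η (ξ, t)) = mm (η (ξ, t)) := by
    simp only [ga', if_neg (not_lt.2 (hξ t)), if_true]
  rw [h1]
  exact hmm2 t

/-- The name of the surjection from `M` onto `Y`. -/
def Cn (T Y : Type) (η : Q.M × T → Q.M) (code : Q.M → Prop) (a : Q.K) (g : (T → Prop) → Y) :
    Q.M → Y → Set (Cond Q) := fun ξ y =>
  {q | a ∈ q.s.Y ∧ (∀ t, η (ξ, t) < q.s.dl) ∧ g (fun t => code (q.s.ga a (η (ξ, t)))) = y}

theorem Cn_mono {T Y : Type} {η : Q.M × T → Q.M} {code : Q.M → Prop} {a : Q.K} {g : (T → Prop) → Y} {ξ : Q.M} {y : Y}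
    {p q : Cond Q} (h : p ∈ Cn T Y η code a g ξ y) (hq : q ≤ p) : q ∈ Cn T Y η code a g ξ y := by
  obtain ⟨h1, h2, h3⟩ := h
  refine ⟨hq.1.1 h1, fun t => (h2 t).trans_le hq.1.2.1, ?_⟩
  rw [← h3]
  congr 1
  funext t
  rw [hq.1.2.2.1 a h1 _ (h2 t)]

/-- In the extension every set of ground model cardinality at most `2 ^ c` is the image of `M`. -/
theorem collapse {X Y : Type} (hX : #Q.M ≤ #X) (hY0 : Nonempty Y) (hY : #Y ≤ (2 : Cardinal.{0}) ^ Q.c) (p : Cond Q) :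
    p ∈ fex fun F : X → Y → Set (Cond Q) => fand (IsFun F) (Covers F fun _ => Set.univ) := by
  classical
  set T : Type := Q.c.ord.ToType with hTdef
  have hTc : #T = Q.c := by rw [hTdef, Cardinal.mk_toType, Cardinal.card_ord]
  have hTc' : #T ≤ Q.c := hTc.le
  obtain ⟨η, hη⟩ := exists_eta (Q := Q) hTc'
  obtain ⟨code, hcode⟩ := exists_code Q
  have hK : Nonempty Q.K := by
    rw [← Cardinal.mk_ne_zero_iff]
    exact (lt_of_le_of_lt zero_le Q.hK).ne'
  obtain ⟨a⟩ := hK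
  have hg : ∃ g : (T → Prop) → Y, Function.Surjective g := by
    have h1 : #Y ≤ #(T → Prop) := by
      rw [Cardinal.mk_arrow, Cardinal.lift_id, Cardinal.lift_id, hTc]
      simpa using hY
    obtain ⟨e⟩ := (Cardinal.le_def _ _).1 h1
    exact ⟨Function.invFun e, Function.invFun_surjective e.injective⟩
  obtain ⟨g, hgs⟩ := hg
  obtain ⟨e⟩ := (Cardinal.le_def _ _).1 hX
  have hM : Nonempty Q.M := Cardinal.mk_ne_zero_iff.1 (by
    rw [Q.hM]; exact (Order.bot_lt_succ Q.c).ne')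
  set e' : X → Q.M := Function.invFun e with he'
  have he's : Function.Surjective e' := Function.invFun_surjective e.injective
  refine mem_fex.2 fun q _ => ⟨q, le_rfl, fun x y => Cn T Y η code a g (e' x) y, ⟨?_, ?_⟩, ?_⟩
  · intro x
    refine mem_fex.2 fun r _ => ?_
    obtain ⟨β, hβ⟩ := big_lb_bound hTc' (fun t => η (e' x, t))
    obtain ⟨r', hr', ha, hd⟩ := ext_height r a β
    refine ⟨r', hr', _, meets_of_mem (fun _ hq _ hr => Cn_mono hq hr) ⟨ha, fun t => (hβ t).trans hd, rfl⟩⟩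
  · intro x y y'
    refine fun r _ hr => ?_
    obtain ⟨⟨h1, h2⟩, h3⟩ := hr
    obtain ⟨r1, hr1, s1, hs1, hrs1⟩ := h1 r le_rfl
    obtain ⟨r2, hr2, s2, hs2, hrs2⟩ := h2 r1 hr1
    have h4 := Cn_mono hs1 (hr2.trans hrs1)
    have h5 := Cn_mono hs2 hrs2
    exact h3 r le_rfl (h4.2.2.symm.trans h5.2.2)
  · intro y
    refine mem_fimp.2 fun r _ _ => ?_
    obtain ⟨x, hx⟩ := hgs y
    obtain ⟨r', hr', ξ, ha, hd, hc⟩ := ext_code hTc' η hη code hcode a r x
    obtain ⟨x', hx'⟩ := he's ξ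
    refine ⟨r', hr', mem_fex.2 fun r'' hr'' => ⟨r'', le_rfl, x', ?_⟩⟩
    refine down_meets (meets_of_mem (fun _ hq _ hr => Cn_mono hq hr) ?_) hr''
    show r' ∈ Cn T Y η code a g (e' x') y
    rw [hx']
    refine ⟨ha, hd, ?_⟩
    rw [← hx]
    congr 1
    funext t
    exact propext (hc t)

end Pool.Agent.R578.AO
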