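import Mathlib
import Pool.Agent.R578.AO

set_option autoImplicit false

open Cardinal Set Pool.Agent.Helper292.SP

namespace Pool.Agent.R578.AO

theorem enum_R {K : Type} [LinearOrder K] [WellFoundedLT K] (R : Set K) (hcount : ∀ a ∈ R, (R ∩ Iio a).Countable)
    (hunc : ¬ R.Countable) : ∃ f : (ℵ₁ : Cardinal.{0}).ord.ToType → K, StrictMono f ∧ range f = R := by
  have h1 : (ℵ₁ : Cardinal.{0}).ord ≤ Ordinal.type (fun x y : R => x < y) := by
    rw [Cardinal.ord_le, Ordinal.card_type]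
    by_contra h
    rw [not_le, Cardinal.lt_aleph_one_iff] at h
    exact hunc (Cardinal.le_aleph0_iff_set_countable.1 h)
  have h2 : Ordinal.type (fun x y : R => x < y) ≤ (ℵ₁ : Cardinal.{0}).ord := by
    by_contra h
    rw [not_le] at h
    set x := Ordinal.enum (α := R) (· < ·) ⟨(ℵ₁ : Cardinal.{0}).ord, h⟩ with hx
    have h3 := Ordinal.typein_enum (α := R) (· < ·) h
    have h4 := congrArg Ordinal.card h3
    rw [Cardinal.card_ord] at h4
    have h5 : #(Iio x) = ℵ₁ := h4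
    have h6 : (Iio x).Countable := by
      have h7 := (hcount x.1 x.2).preimage (Subtype.val_injective (p := fun y => y ∈ R))
      exact h7.mono (fun (y : R) (hy : y ∈ Iio x) => (⟨y.2, hy⟩ : y.1 ∈ R ∩ Iio x.1))
    have h8 : #(Iio x) ≤ ℵ₀ := Cardinal.le_aleph0_iff_set_countable.2 h6
    rw [h5] at h8
    exact absurd h8 (not_le.2 Cardinal.aleph0_lt_aleph_one)
  have h3 : Ordinal.type (fun x y : (ℵ₁ : Cardinal.{0}).ord.ToType => x < y) =
      Ordinal.type (fun x y : R => x < y) := by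
    rw [le_antisymm h2 h1]
    exact Ordinal.type_toType _
  obtain ⟨g⟩ := Ordinal.type_eq.1 h3
  let e : (ℵ₁ : Cardinal.{0}).ord.ToType ≃o R := OrderIso.ofRelIsoLT g
  refine ⟨fun x => (e x).1, fun x y hxy => e.strictMono hxy, ?_⟩
  ext a
  constructor
  · rintro ⟨x, rfl⟩
    exact (e x).2
  · intro ha
    exact ⟨e.symm ⟨a, ha⟩, by simp⟩

theorem mk_seg {K : Type} [LinearOrder K] {a : K} (b : Iio a) : #(Iio b) = #(Iio b.1) :=
  Cardinal.mk_congr
    { toFun := fun x => ⟨x.1.1, x.2⟩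
      invFun := fun x => ⟨⟨x.1, lt_trans x.2 b.2⟩, x.2⟩
      left_inv := fun _ => rfl
      right_inv := fun _ => rfl }

theorem not_isCard {P : Type} [Preorder P] {A : Type} [LinearOrder A] (b : A)
    (h : ∀ q : P, q ∈ fex fun F : Iio b → A → Set P => fand (IsFun F) (Covers F fun _ => Set.univ)) (p : P) :
    p ∈ fnot (IsCard P A) := by
  intro q _ hq
  exact hq b q le_rfl (h q)

theorem ground_onto {P : Type} [Preorder P] {X Y : Type} (g : X → Y) (hg : Function.Surjective g) (p : P) :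
    p ∈ fex fun F : X → Y → Set P => fand (IsFun F) (Covers F fun _ => Set.univ) := by
  refine mem_fex.2 fun q _ => ⟨q, le_rfl, fun x y => {_r : P | g x = y}, ⟨?_, ?_⟩, ?_⟩
  · intro x
    refine mem_fex.2 fun r _ => ⟨r, le_rfl, g x, meets_cst.2 rfl⟩
  · intro x y y' r _ hr
    obtain ⟨⟨h1, h2⟩, h3⟩ := hr
    have e1 : g x = y := meets_cst.1 h1
    have e2 : g x = y' := meets_cst.1 h2
    exact h3 r le_rfl (e1.symm.trans e2)
  · intro y
    refine mem_fimp.2 fun r _ _ => ?_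
    obtain ⟨x, hx⟩ := hg y
    exact ⟨r, le_rfl, mem_fex.2 fun r' _ => ⟨r', le_rfl, x, meets_cst.2 hx⟩⟩

/-- The infinite cardinals below `K` which remain cardinals. -/
def RK (K : Type) [LinearOrder K] : Set K :=
  {a | ℵ₀ ≤ #(Iio a) ∧ (∀ b < a, #(Iio b) < #(Iio a)) ∧
    (#(Iio a) ≤ ℵ₁ ∨ (2 : Cardinal.{0}) ^ (ℵ₀ : Cardinal.{0}) < #(Iio a))}

theorem countable_Iio_ord (ξ : Ordinal.{0}) (hξ : ξ < (ℵ₁ : Cardinal.{0}).ord) : (Iic ξ).Countable := by
  have h0 : Order.succ ξ < (ℵ₁ : Cardinal.{0}).ord :=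
    (Cardinal.isSuccLimit_ord Cardinal.aleph0_lt_aleph_one.le).succ_lt hξ
  have h1 : (Iio (Order.succ ξ)).Countable := by
    rw [← Cardinal.le_aleph0_iff_set_countable, Cardinal.mk_Iio_ordinal]
    have h2 : (Order.succ ξ).card < ℵ₁ := Cardinal.lt_ord.1 h0
    have h3 := Cardinal.lt_aleph_one_iff.1 h2
    exact Cardinal.lift_le_aleph0.2 h3
  exact h1.mono (fun (x : Ordinal.{0}) (hx : x ≤ ξ) => (Order.lt_succ_of_le hx : x < Order.succ ξ))

theorem RK_count (α : Ordinal.{0}) (hα : (2 : Cardinal.{0}) ^ (ℵ₀ : Cardinal.{0}) = Cardinal.aleph α)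
    (K : Type) [LinearOrder K] (hK : #K = Cardinal.aleph (α + (ℵ₁ : Cardinal.{0}).ord))
    (hI : ∀ a : K, #(Iio a) < #K) (a : K) : (RK K ∩ Iio a).Countable := by
  have hex : ∀ b : K, ∃ β : Ordinal.{0}, ℵ₀ ≤ #(Iio b) → Cardinal.aleph β = #(Iio b) := by
    intro b
    by_cases h : ℵ₀ ≤ #(Iio b)
    · obtain ⟨β, hβ⟩ := Cardinal.mem_range_aleph_iff.2 h
      exact ⟨β, fun _ => hβ⟩
    · exact ⟨0, fun h' => absurd h' h⟩
  choose B hB using hex
  have hinj : ∀ b ∈ RK K, ∀ b' ∈ RK K, #(Iio b) = #(Iio b') → b = b' := by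
    intro b hb b' hb' h
    rcases lt_trichotomy b b' with h1 | h1 | h1
    · exact absurd h (hb'.2.1 b h1).ne
    · exact h1
    · exact absurd h (hb.2.1 b' h1).ne'
  have hsub : RK K ∩ Iio a ⊆ {b | b ∈ RK K ∧ #(Iio b) ≤ ℵ₁} ∪
      {b | b ∈ RK K ∧ b < a ∧ (2 : Cardinal.{0}) ^ (ℵ₀ : Cardinal.{0}) < #(Iio b)} := by
    rintro b ⟨hb, hba⟩
    rcases hb.2.2 with h | h
    · exact Or.inl ⟨hb, h⟩
    · exact Or.inr ⟨hb, hba, h⟩
  refine Set.Countable.mono hsub (Set.Countable.union ?_ ?_)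
  · refine Set.Finite.countable ?_
    refine Set.Finite.of_injOn (f := fun b : K => #(Iio b)) (t := {ℵ₀, ℵ₁}) ?_ ?_ (Set.toFinite _)
    · intro b hb
      rcases hb.2.lt_or_eq with h | h
      · exact Or.inl (le_antisymm (Cardinal.lt_aleph_one_iff.1 h) hb.1.1)
      · exact Or.inr h
    · intro b hb b' hb' h
      exact hinj b hb.1 b' hb'.1 h
  · have hlt : B a - α < (ℵ₁ : Cardinal.{0}).ord ∨ ¬ ℵ₀ ≤ #(Iio a) := by
      by_cases h : ℵ₀ ≤ #(Iio a)
      · left
        have h1 : Cardinal.aleph (B a) < Cardinal.aleph (α + (ℵ₁ : Cardinal.{0}).ord) := by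
          rw [hB a h, ← hK]; exact hI a
        have h2 : B a < α + (ℵ₁ : Cardinal.{0}).ord := Cardinal.aleph_lt_aleph.1 h1
        have h3 : 0 < (ℵ₁ : Cardinal.{0}).ord := by
          rw [Cardinal.lt_ord]
          simp
        exact Ordinal.sub_lt_of_lt_add h2 h3
      · exact Or.inr h
    rcases hlt with hlt | hfin
    · have hcb := countable_Iio_ord _ hlt
      refine Set.MapsTo.countable_of_injOn (f := fun b : K => B b - α) ?_ ?_ hcb
      · rintro b ⟨hb, hba, hb2⟩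
        show B b - α ≤ B a - α
        have h1 : #(Iio b) ≤ #(Iio a) := Cardinal.mk_le_mk_of_subset (Iio_subset_Iio hba.le)
        have h2 : Cardinal.aleph (B b) ≤ Cardinal.aleph (B a) := by
          rw [hB b hb.1, hB a (hb.1.trans h1)]; exact h1
        have h3 : B b ≤ B a := Cardinal.aleph_le_aleph.1 h2
        exact Ordinal.sub_le.2 (h3.trans (Ordinal.le_add_sub _ _))
      · rintro b ⟨hb, hba, hb2⟩ b' ⟨hb', hba', hb2'⟩ h
        have h1 : α ≤ B b := by
          rw [hα, ← hB b hb.1] at hb2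
          exact (Cardinal.aleph_lt_aleph.1 hb2).le
        have h2 : α ≤ B b' := by
          rw [hα, ← hB b' hb'.1] at hb2'
          exact (Cardinal.aleph_lt_aleph.1 hb2').le
        have h3 : B b = B b' := by
          rw [← Ordinal.add_sub_cancel_of_le h1, ← Ordinal.add_sub_cancel_of_le h2]
          exact congrArg (α + ·) h
        refine hinj b hb b' hb' ?_
        rw [← hB b hb.1, ← hB b' hb'.1, h3]
    · refine Set.Countable.mono (s₂ := ∅) ?_ Set.countable_empty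
      rintro b ⟨hb, hba, hb2⟩
      exact absurd (hb.1.trans (Cardinal.mk_le_mk_of_subset (Iio_subset_Iio hba.le))) hfin

end Pool.Agent.R578.AO
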