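import Mathlib
import Pool.Agent.R578.AO2

set_option autoImplicit false

open Cardinal Set Pool.Agent.Helper292.SP

namespace Pool.Agent.R578.AO

theorem pow_aleph0 : ∀ σ < (ℵ₀ : Cardinal.{0}), (ℵ₀ : Cardinal.{0}) ^ σ ≤ ℵ₀ := by
  intro σ hσ
  obtain ⟨n, rfl⟩ := Cardinal.lt_aleph0.1 hσ
  exact Cardinal.power_nat_le le_rfl

theorem general (μ κ : Cardinal.{0}) (hμ : μ.IsRegular) (hpow : ∀ σ < μ, μ ^ σ ≤ μ)
    (hκ : (2 : Cardinal.{0}) ^ μ < κ) (hcof : κ.ord.cof = Order.succ μ) :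
    ∃ (K P : Type) (_ : LinearOrder K) (_ : WellFoundedLT K) (_ : Preorder P),
      Ordinal.type (α := K) (· < ·) = κ.ord ∧ Nonempty P ∧ ∀ p : P,
      (∀ X Y : Type, #X < #Y → (#Y ≤ Order.succ μ ∨ (2 : Cardinal.{0}) ^ μ < #Y) →
        p ∈ fnot (fex fun F : X → Y → Set P => fand (IsFun F) (Covers F fun _ => Set.univ))) ∧
      (∀ X Y : Type, Order.succ μ ≤ #X → Nonempty Y → #Y ≤ (2 : Cardinal.{0}) ^ μ →
        p ∈ fex fun F : X → Y → Set P => fand (IsFun F) (Covers F fun _ => Set.univ)) ∧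
      p ∈ fnot (ArrowT P K (WithTop ℕ)) := by
  obtain ⟨Q, oK, wK, f, hQθ, hQc, hQK, hmono, hA, hI, hseg, hf, hcofinal, htype, htM⟩ :=
    exists_par μ μ κ hμ.aleph0_le hμ le_rfl hpow hκ hcof
  refine ⟨Q.K, Cond Q, oK, wK, inferInstance, htype, cond_nonempty Q, fun p => ⟨?_, ?_, not_arrowT hA hmono p⟩⟩
  · intro X Y hXY h
    refine preserved_gen hXY ?_ p
    rw [hQθ, hQc]
    rcases h with h | h
    · rcases lt_or_ge (#X) μ with hX | hX
      · exact Or.inl hX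
      · exact Or.inr (Or.inl ⟨Order.lt_succ_iff.1 (hXY.trans_le h), hX.trans_lt hXY⟩)
    · exact Or.inr (Or.inr h)
  · intro X Y hX hY0 hY
    exact collapse (by rw [Q.hM, hQc]; exact hX) hY0 (by rw [hQc]; exact hY) p

theorem isCard_trans {P : Type} [Preorder P] {A B : Type} [LinearOrder A] [LinearOrder B]
    {p : P} (h : ∀ X Y : Type, #X < #Y → #Y ≤ #A →
      #Y = #A → p ∈ fnot (fex fun F : X → Y → Set P => fand (IsFun F) (Covers F fun _ => Set.univ)))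
    (hI : ∀ a : A, #(Iio a) < #A) : p ∈ IsCard P A := by
  intro a
  exact h (Iio a) A (hI a) le_rfl rfl

theorem aleph_case :
    ∃ (K P : Type) (_ : LinearOrder K) (_ : WellFoundedLT K) (_ : Preorder P)
      (f : (ℵ₁ : Cardinal.{0}).ord.ToType → K), Nonempty P ∧ StrictMono f ∧ (∀ y, ∃ x, y ≤ f x) ∧ ∀ p : P,
        p ∈ IsCard P (ℵ₁ : Cardinal.{0}).ord.ToType ∧ p ∈ IsCard P K ∧
        (∀ a : K, a ∈ range f → (Iio a).Infinite ∧ p ∈ IsCard P (Iio a)) ∧
        (∀ a : K, a ∉ range f → (Iio a).Finite ∨ p ∈ fnot (IsCard P (Iio a))) ∧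
        p ∈ fnot (ArrowT P K (WithTop ℕ)) := by
  obtain ⟨α, hα⟩ := Cardinal.mem_range_aleph_iff.2
    ((Cardinal.cantor (ℵ₀ : Cardinal.{0})).le : ℵ₀ ≤ (2 : Cardinal.{0}) ^ (ℵ₀ : Cardinal.{0}))
  set κ : Cardinal.{0} := Cardinal.aleph (α + (ℵ₁ : Cardinal.{0}).ord) with hκdef
  have hpos : 0 < (ℵ₁ : Cardinal.{0}).ord := by
    rw [Cardinal.lt_ord]
    simp
  have hlim1 : Order.IsSuccLimit (ℵ₁ : Cardinal.{0}).ord := Cardinal.isSuccLimit_ord Cardinal.aleph0_lt_aleph_one.le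
  have hlim : Order.IsSuccLimit (α + (ℵ₁ : Cardinal.{0}).ord) := Ordinal.isSuccLimit_add α hlim1
  have h2κ : (2 : Cardinal.{0}) ^ (ℵ₀ : Cardinal.{0}) < κ := by
    rw [← hα, hκdef, Cardinal.aleph_lt_aleph]
    exact lt_add_of_pos_right _ hpos
  have hcof1 : κ.ord.cof = ℵ₁ := by
    have h1 := Ordinal.cof_map_of_isNormal Ordinal.isNormal_omega hlim
    rw [hκdef, Cardinal.ord_aleph, h1, Ordinal.cof_add _ hpos.ne']
    exact Cardinal.isRegular_aleph_one.cof_ord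
  have hcof : κ.ord.cof = Order.succ ℵ₀ := by rw [hcof1, Cardinal.succ_aleph0]
  have hκsucc : ∀ ν < κ, ℵ₀ ≤ ν → Order.succ ν < κ := by
    intro ν hν h0
    obtain ⟨β, rfl⟩ := Cardinal.mem_range_aleph_iff.2 h0
    rw [Cardinal.succ_aleph, hκdef, Cardinal.aleph_lt_aleph]
    exact hlim.succ_lt (Cardinal.aleph_lt_aleph.1 hν)
  obtain ⟨Q, oK, wK, f0, hQθ, hQc, hQK, hmono, hA, hI, hseg, hf, hcofinal, htype, htM⟩ :=
    exists_par ℵ₀ ℵ₀ κ le_rfl Cardinal.isRegular_aleph0 le_rfl pow_aleph0 h2κ hcof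
  have hsegK : ∀ ν < κ, ∃ a : Q.K, #(Iio a) = ν ∧ ∀ b < a, #(Iio b) < ν := by
    intro ν hν
    have h1 : Ordinal.type (α := ν.ord.ToType) (· < ·) < Ordinal.type (α := Q.K) (· < ·) := by
      rw [Ordinal.type_toType, htype]
      exact Cardinal.ord_lt_ord.2 hν
    obtain ⟨g⟩ := Ordinal.type_lt_iff.1 h1
    have e : ν.ord.ToType ≃o Iio g.top :=
      OrderIso.ofRelIsoLT (α := ν.ord.ToType) (β := Iio g.top) g.subrelIso.symm
    refine ⟨g.top, ?_, fun b hb => ?_⟩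
    · rw [← Cardinal.mk_congr e.toEquiv, Cardinal.mk_toType, Cardinal.card_ord]
    · have h2 : #(Iio b) = #(Iio (e.symm ⟨b, hb⟩)) := by
        rw [← mk_seg (⟨b, hb⟩ : Iio g.top)]
        exact Cardinal.mk_congr
          { toFun := fun x => ⟨e.symm x.1, e.symm.strictMono x.2⟩
            invFun := fun x => ⟨e x.1, by
              have := e.strictMono x.2
              rw [OrderIso.apply_symm_apply] at this
              exact this⟩
            left_inv := fun x => by simp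
            right_inv := fun x => by simp }
      rw [h2]
      exact Cardinal.mk_Iio_toType_ord_lt _
  have hcard : ∀ p : Cond Q, ∀ X Y : Type, #X < #Y → (#Y ≤ ℵ₁ ∨ (2 : Cardinal.{0}) ^ (ℵ₀ : Cardinal.{0}) < #Y) →
      p ∈ fnot (fex fun F : X → Y → Set (Cond Q) => fand (IsFun F) (Covers F fun _ => Set.univ)) := by
    intro p X Y hXY h
    refine preserved_gen hXY ?_ p
    rw [hQθ, hQc]
    rcases h with h | h
    · rcases lt_or_ge (#X) ℵ₀ with hX | hX
      · exact Or.inl hX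
      · exact Or.inr (Or.inl ⟨Cardinal.lt_aleph_one_iff.1 (hXY.trans_le h), hX.trans_lt hXY⟩)
    · exact Or.inr (Or.inr h)
  have hRcof : ∀ b : Q.K, ∃ a ∈ RK Q.K, b < a := by
    intro b
    have h1 : max (#(Iio b)) ((2 : Cardinal.{0}) ^ (ℵ₀ : Cardinal.{0})) < κ := max_lt (hQK ▸ hI b) h2κ
    have h0 : ℵ₀ ≤ max (#(Iio b)) ((2 : Cardinal.{0}) ^ (ℵ₀ : Cardinal.{0})) :=
      (Cardinal.cantor _).le.trans (le_max_right _ _)
    obtain ⟨a, ha, ha'⟩ := hsegK _ (hκsucc _ h1 h0)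
    have h2 : #(Iio b) < #(Iio a) := by
      rw [ha]; exact (le_max_left _ _).trans_lt (Order.lt_succ _)
    have h3 : (2 : Cardinal.{0}) ^ (ℵ₀ : Cardinal.{0}) < #(Iio a) := by
      rw [ha]; exact (le_max_right _ _).trans_lt (Order.lt_succ _)
    refine ⟨a, ⟨(Cardinal.cantor _).le.trans h3.le, fun b' hb' => ?_, Or.inr h3⟩, ?_⟩
    · rw [ha]; exact ha' b' hb'
    · by_contra h
      exact absurd h2 (not_lt.2 (Cardinal.mk_le_mk_of_subset (Iio_subset_Iio (not_lt.1 h))))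
  have hRunc : ¬ (RK Q.K).Countable := by
    intro hc
    have hM : ∀ a : Q.K, ∃ x : Q.M, a < f0 x := by
      intro a
      obtain ⟨a', -, ha'⟩ := hRcof a
      obtain ⟨x, hx⟩ := hcofinal a'
      exact ⟨x, ha'.trans_le hx⟩
    choose x hx using hM
    have h1 : #(RK Q.K) ≤ Q.c := by
      rw [hQc]
      exact Cardinal.le_aleph0_iff_set_countable.2 hc
    obtain ⟨β, hβ⟩ := big_lb_bound h1 (fun a : RK Q.K => x a.1)
    obtain ⟨a, haR, ha⟩ := hRcof (f0 β)
    exact absurd ((ha.trans (hx a)).trans (hf (hβ ⟨a, haR⟩))) (lt_irrefl _)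
  obtain ⟨f, hfm, hfr⟩ := enum_R (RK Q.K)
    (fun a _ => RK_count α hα.symm Q.K (by rw [hQK]) hI a) hRunc
  refine ⟨Q.K, Cond Q, oK, wK, inferInstance, f, cond_nonempty Q, hfm, ?_, fun p => ⟨?_, isCard_K hI p, ?_, ?_,
    not_arrowT hA hmono p⟩⟩
  · intro y
    obtain ⟨a, haR, ha⟩ := hRcof y
    rw [← hfr] at haR
    obtain ⟨x, rfl⟩ := haR
    exact ⟨x, ha.le⟩
  · intro a
    exact hcard p _ _ (hI_ord _ a) (Or.inl (by rw [Cardinal.mk_toType, Cardinal.card_ord]))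
  · intro a ha
    rw [hfr] at ha
    refine ⟨?_, fun b => ?_⟩
    · rw [← Set.infinite_coe_iff, Cardinal.infinite_iff]
      exact ha.1
    · refine hcard p _ _ ?_ ha.2.2
      rw [mk_seg]
      exact ha.2.1 b.1 b.2
  · intro a ha
    rw [hfr] at ha
    rcases lt_or_ge (#(Iio a)) ℵ₀ with hfin | hinf
    · exact Or.inl (Cardinal.lt_aleph0_iff_set_finite.1 hfin)
    · right
      by_cases hini : ∀ b < a, #(Iio b) < #(Iio a)
      · have h1 : ℵ₁ < #(Iio a) ∧ #(Iio a) ≤ (2 : Cardinal.{0}) ^ (ℵ₀ : Cardinal.{0}) := by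
          by_contra hcon
          apply ha
          refine ⟨hinf, hini, ?_⟩
          by_contra h2
          push Not at h2
          exact hcon h2
        have h2 : ℵ₁ < κ := h1.1.trans (hQK ▸ hI a)
        obtain ⟨b, hb, hb'⟩ := hsegK _ h2
        have hba : b < a := by
          by_contra h
          have h3 : #(Iio a) ≤ #(Iio b) := Cardinal.mk_le_mk_of_subset (Iio_subset_Iio (not_lt.1 h))
          rw [hb] at h3
          exact absurd h1.1 (not_lt.2 h3)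
        refine not_isCard (⟨b, hba⟩ : Iio a) (fun q => ?_) p
        refine collapse ?_ ⟨⟨b, hba⟩⟩ (by rw [hQc]; exact h1.2) q
        rw [mk_seg, Q.hM, hQc, Cardinal.succ_aleph0, hb]
      · push Not at hini
        obtain ⟨b, hba, hb⟩ := hini
        refine not_isCard (⟨b, hba⟩ : Iio a) (fun q => ?_) p
        have h1 : #(Iio a) ≤ #(Iio (⟨b, hba⟩ : Iio a)) := by rw [mk_seg]; exact hb
        obtain ⟨e⟩ := (Cardinal.le_def _ _).1 h1
        have : Nonempty (Iio a) := ⟨⟨b, hba⟩⟩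
        exact ground_onto (Function.invFun e) (Function.invFun_surjective e.injective) q

end Pool.Agent.R578.AO
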