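import Mathlib

/-!
# An abelian-square-free word over five letters

`W n` is the sum modulo `5` of `u d` over the base-`12` digits `d` of `n`, with
`u = 0 1 2 1 4 0 4 1 4 3 1 0`.  We show that `W` contains no abelian square: for `a < k < b` the
prefix letter counts never satisfy `P a + P b = 2 P k`.
-/

namespace Pool.Agent.R578.ASF

open Finset

def uf (r : ℕ) : ℕ := [0, 1, 2, 1, 4, 0, 4, 1, 4, 3, 1, 0].getD r 0

def W (n : ℕ) : ℕ :=
  if h : n = 0 then 0 else (uf (n % 12) + W (n / 12)) % 5
termination_by n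
decreasing_by omega

theorem W_zero : W 0 = 0 := by rw [W]; simp

theorem W_rec (t i : ℕ) (hi : i < 12) : W (12 * t + i) = (uf i + W t) % 5 := by
  by_cases h : 12 * t + i = 0
  · have ht : t = 0 := by omega
    have hi0 : i = 0 := by omega
    subst ht; subst hi0
    simp [W_zero, uf]
  · rw [W, dif_neg h]
    have h1 : (12 * t + i) % 12 = i := by omega
    have h2 : (12 * t + i) / 12 = t := by omega
    rw [h1, h2]

theorem W_lt (n : ℕ) : W n < 5 := by
  by_cases h : n = 0
  · subst h; rw [W_zero]; norm_num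
  · rw [W, dif_neg h]; exact Nat.mod_lt _ (by norm_num)

/-- weighted prefix sum -/
def ws (φ : ℕ → ℤ) (n : ℕ) : ℤ := ∑ m ∈ range n, φ (W m)

/-- weighted prefix sum of the image of a letter -/
def pre (φ : ℕ → ℤ) (x i : ℕ) : ℤ := ∑ r ∈ range i, φ ((uf r + x) % 5)

theorem ws_succ (φ : ℕ → ℤ) (n : ℕ) : ws φ (n + 1) = ws φ n + φ (W n) := by
  rw [ws, sum_range_succ]; rfl

theorem ws_block (φ : ℕ → ℤ) (t i : ℕ) (hi : i ≤ 12) :
    ws φ (12 * t + i) = ws φ (12 * t) + pre φ (W t) i := by
  induction i with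
  | zero => simp [pre]
  | succ i ih =>
    rw [← add_assoc, ws_succ, ih (by omega), W_rec t i (by omega), pre, pre, sum_range_succ]
    ring

theorem ws_rec (φ : ℕ → ℤ) (t i : ℕ) (hi : i ≤ 12) :
    ws φ (12 * t + i) = ws (fun x => pre φ x 12) t + pre φ (W t) i := by
  have key : ∀ t, ws φ (12 * t) = ws (fun x => pre φ x 12) t := by
    intro t
    induction t with
    | zero => simp [ws]
    | succ t ih =>
      rw [ws_succ, ← ih, mul_add, mul_one, ws_block φ t 12 le_rfl]
  rw [ws_block φ t i hi, key]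

/-- indicator weight -/
def del (y x : ℕ) : ℤ := if x = y then 1 else 0

theorem ws_eq_sum (φ : ℕ → ℤ) (n : ℕ) : ws φ n = ∑ y ∈ range 5, φ y * ws (del y) n := by
  induction n with
  | zero => simp [ws]
  | succ n ih =>
    rw [ws_succ, ih]
    have : φ (W n) = ∑ y ∈ range 5, φ y * del y (W n) := by
      have h := W_lt n
      simp only [del, mul_ite, mul_one, mul_zero]
      rw [sum_ite_eq]
      simp [h]
    rw [this, ← sum_add_distrib]
    apply sum_congr rfl
    intro y _
    rw [ws_succ]; ring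

/-- `P a + P b = 2 P k` -/
def AP (a k b : ℕ) : Prop := ∀ φ : ℕ → ℤ, ws φ a + ws φ b = 2 * ws φ k

theorem AP_of_del {a k b : ℕ} (h : ∀ y, y < 5 → ws (del y) a + ws (del y) b = 2 * ws (del y) k) :
    AP a k b := by
  intro φ
  rw [ws_eq_sum φ a, ws_eq_sum φ b, ws_eq_sum φ k, ← sum_add_distrib, mul_sum]
  apply sum_congr rfl
  intro y hy
  have := h y (mem_range.mp hy)
  linear_combination φ y * this

theorem AP.len {a k b : ℕ} (h : AP a k b) : a + b = 2 * k := by
  have := h (fun _ => 1)
  simp [ws] at this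
  exact_mod_cast this

/-- inverse weights -/
def ph (y b : ℕ) : ℤ := [-43, 185, -115, -67, 101].getD ((b + 5 - y) % 5) 0

def T : List (List ℤ) :=
  (List.range 5).map fun x => (List.range 12).map fun i =>
    ((List.range i).map fun r => ph 0 ((uf r + x) % 5)).sum

def TT (x i : ℕ) : ℤ := (T.getD x []).getD i 0

/-- the discrepancy -/
def DD (y x1 i x2 j x3 l : ℕ) : ℤ :=
  2 * TT ((x2 + 5 - y) % 5) j - TT ((x1 + 5 - y) % 5) i - TT ((x3 + 5 - y) % 5) l

theorem TT_spec : ∀ y < 5, ∀ x < 5, ∀ i < 12, pre (ph y) x i = TT ((x + 5 - y) % 5) i := by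
  decide +kernel

theorem ph_full : ∀ y < 5, ∀ x < 5, pre (ph y) x 12 = 732 * del y x := by
  decide +kernel

def cl (x1 i x2 j x3 l : ℕ) (τ α γ : ℕ) : Bool :=
  (List.range 5).all fun y => DD y x1 i x2 j x3 l ==
    732 * (2 * τ * del y x2 - α * del y x1 - γ * del y x3)

def chk (x1 i x2 j x3 l : ℕ) : Bool :=
  !((List.range 5).all fun y => DD y x1 i x2 j x3 l % 732 == 0) ||
    (cl x1 i x2 j x3 l 0 0 0 || cl x1 i x2 j x3 l 0 1 0 || cl x1 i x2 j x3 l 0 0 1 ||
     cl x1 i x2 j x3 l 0 1 1 || cl x1 i x2 j x3 l 1 0 0 || cl x1 i x2 j x3 l 1 1 0 ||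
     cl x1 i x2 j x3 l 1 0 1 || cl x1 i x2 j x3 l 1 1 1)

def chkAll : Bool :=
  (List.range 5).all fun x1 => (List.range 5).all fun x2 => (List.range 5).all fun x3 =>
    (List.range 12).all fun i => (List.range 12).all fun j =>
      chk x1 i x2 j x3 ((2 * j + 12 - i) % 12)

theorem chkAll_true : chkAll = true := by decide +kernel

theorem chk_spec {x1 x2 x3 i j l : ℕ} (h1 : x1 < 5) (h2 : x2 < 5) (h3 : x3 < 5) (hi : i < 12)
    (hj : j < 12) (hl : l < 12) (hil : (i + l) % 12 = (2 * j) % 12)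
    (hd : ∀ y < 5, (732 : ℤ) ∣ DD y x1 i x2 j x3 l) :
    ∃ τ α γ : ℕ, τ ≤ 1 ∧ α ≤ 1 ∧ γ ≤ 1 ∧ ∀ y < 5, DD y x1 i x2 j x3 l =
      732 * (2 * τ * del y x2 - α * del y x1 - γ * del y x3) := by
  have h := chkAll_true
  simp only [chkAll, List.all_eq_true, List.mem_range] at h
  have h' := h x1 h1 x2 h2 x3 h3 i hi j hj
  have hl' : (2 * j + 12 - i) % 12 = l := by omega
  rw [hl'] at h'
  simp only [chk, Bool.or_eq_true, Bool.not_eq_true'] at h'
  have hcl : ∀ τ α γ : ℕ, cl x1 i x2 j x3 l τ α γ = true → ∀ y < 5, DD y x1 i x2 j x3 l =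
      732 * (2 * τ * del y x2 - α * del y x1 - γ * del y x3) := by
    intro τ α γ hc y hy
    simp only [cl, List.all_eq_true, List.mem_range, beq_iff_eq] at hc
    exact hc y hy
  rcases h' with h' | h'
  · exfalso
    rw [Bool.eq_false_iff] at h'
    apply h'
    simp only [List.all_eq_true, List.mem_range, beq_iff_eq]
    intro y hy
    exact Int.emod_eq_zero_of_dvd (hd y hy)
  · rcases h' with ((((((h' | h') | h') | h') | h') | h') | h') | h'
    · exact ⟨0, 0, 0, by omega, by omega, by omega, hcl _ _ _ h'⟩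
    · exact ⟨0, 1, 0, by omega, by omega, by omega, hcl _ _ _ h'⟩
    · exact ⟨0, 0, 1, by omega, by omega, by omega, hcl _ _ _ h'⟩
    · exact ⟨0, 1, 1, by omega, by omega, by omega, hcl _ _ _ h'⟩
    · exact ⟨1, 0, 0, by omega, by omega, by omega, hcl _ _ _ h'⟩
    · exact ⟨1, 1, 0, by omega, by omega, by omega, hcl _ _ _ h'⟩
    · exact ⟨1, 0, 1, by omega, by omega, by omega, hcl _ _ _ h'⟩
    · exact ⟨1, 1, 1, by omega, by omega, by omega, hcl _ _ _ h'⟩

/-- prefix counts in the image of a two-letter word -/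
def pre2 (φ : ℕ → ℤ) (x y n : ℕ) : ℤ := pre φ x (min n 12) + pre φ y (n - 12)

theorem ws_pre2 (φ : ℕ → ℤ) (t n : ℕ) (hn : n ≤ 24) :
    ws φ (12 * t + n) = ws (fun x => pre φ x 12) t + pre2 φ (W t) (W (t + 1)) n := by
  by_cases h : n ≤ 12
  · rw [ws_rec φ t n h, pre2, min_eq_left h, Nat.sub_eq_zero_of_le h]
    simp [pre]
  · have e : 12 * t + n = 12 * (t + 1) + (n - 12) := by omega
    rw [e, ws_rec φ (t + 1) (n - 12) (by omega), ws_succ, pre2, min_eq_right (by omega)]
    ring

def baseB : Bool :=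
  (List.range 5).all fun x => (List.range 5).all fun y => x == y ||
    (List.range 24).all fun k => (List.range 24).all fun a => !(a < k) || !(2 * k - a < 24) ||
      !((List.range 5).all fun c => pre2 (del c) x y a + pre2 (del c) x y (2 * k - a) ==
        2 * pre2 (del c) x y k)

theorem baseB_true : baseB = true := by decide +kernel

theorem base_spec {x y a k b : ℕ} (hx : x < 5) (hy : y < 5) (hxy : x ≠ y) (hak : a < k)
    (hkb : k < b) (hb : b < 24) (hab : a + b = 2 * k)
    (h : ∀ c < 5, pre2 (del c) x y a + pre2 (del c) x y b = 2 * pre2 (del c) x y k) : False := by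
  have h0 := baseB_true
  simp only [baseB, List.all_eq_true, List.mem_range, Bool.or_eq_true, beq_iff_eq,
    Bool.not_eq_true', decide_eq_false_iff_not] at h0
  have hb' : 2 * k - a = b := by omega
  rcases h0 x hx y hy with h1 | h1
  · exact hxy h1
  · rcases h1 k (by omega) a (by omega) with (h2 | h2) | h2
    · exact h2 hak
    · exact h2 (by omega)
    · rw [Bool.eq_false_iff] at h2
      apply h2
      simp only [List.all_eq_true, List.mem_range, beq_iff_eq]
      intro c hc
      rw [hb']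
      exact h c hc

theorem step_del {n : ℕ} (y ε : ℕ) (hε : ε ≤ 1) :
    ws (del y) (n + ε) = ws (del y) n + ε * del y (W n) := by
  rcases Nat.le_one_iff_eq_zero_or_eq_one.mp hε with rfl | rfl
  · simp
  · rw [ws_succ]; simp

/-- **`W` is abelian-square-free.** -/
theorem noAP : ∀ b k a, a < k → k < b → ¬ AP a k b := by
  intro b
  induction b using Nat.strong_induction_on with
  | _ b ih =>
  intro k a hak hkb hAP
  obtain ⟨a', i, hi, rfl⟩ : ∃ a' i, i < 12 ∧ a = 12 * a' + i :=
    ⟨a / 12, a % 12, Nat.mod_lt _ (by norm_num), by omega⟩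
  obtain ⟨k', j, hj, rfl⟩ : ∃ a' i, i < 12 ∧ k = 12 * a' + i :=
    ⟨k / 12, k % 12, Nat.mod_lt _ (by norm_num), by omega⟩
  obtain ⟨b', l, hl, rfl⟩ : ∃ a' i, i < 12 ∧ b = 12 * a' + i :=
    ⟨b / 12, b % 12, Nat.mod_lt _ (by norm_num), by omega⟩
  have hlen := hAP.len
  have hW : ∀ y < 5, (732 : ℤ) * (ws (del y) a' + ws (del y) b' - 2 * ws (del y) k') =
      DD y (W a') i (W k') j (W b') l := by
    intro y hy
    have h := hAP (ph y)
    rw [ws_rec _ a' i hi.le, ws_rec _ b' l hl.le, ws_rec _ k' j hj.le,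
      TT_spec y hy _ (W_lt a') i hi, TT_spec y hy _ (W_lt b') l hl,
      TT_spec y hy _ (W_lt k') j hj] at h
    have hf : ∀ t, ws (fun x => pre (ph y) x 12) t = 732 * ws (del y) t := by
      intro t
      rw [ws, ws, mul_sum]
      apply sum_congr rfl
      intro m _
      exact ph_full y hy _ (W_lt m)
    rw [hf, hf, hf] at h
    rw [DD]
    linear_combination h
  obtain ⟨τ, α, γ, hτ, hα, hγ, hD⟩ := chk_spec (W_lt a') (W_lt k') (W_lt b') hi hj hl (by omega)
    (fun y hy => ⟨_, (hW y hy).symm⟩)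
  have hAP' : AP (a' + α) (k' + τ) (b' + γ) := by
    apply AP_of_del
    intro y hy
    have e1 := hW y hy
    rw [hD y hy] at e1
    have e2 := mul_left_cancel₀ (by norm_num : (732 : ℤ) ≠ 0) e1
    rw [step_del y α hα, step_del y γ hγ, step_del y τ hτ]
    linear_combination e2
  have hlen' := hAP'.len
  by_cases hc : a' + α < k' + τ
  · exact ih (b' + γ) (by omega) (k' + τ) (a' + α) hc (by omega) hAP'
  · -- everything inside two blocks
    have hb1 : b' ≤ a' + 1 := by omega
    have hne : W a' ≠ W (a' + 1) := by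
      intro he
      have hAP2 : AP a' (a' + 1) (a' + 2) := by
        intro φ
        have e1 := ws_succ φ a'
        have e2 := ws_succ φ (a' + 1)
        rw [← he] at e2
        have e3 : a' + 2 = a' + 1 + 1 := rfl
        rw [e3, e2, e1]; ring
      by_cases ht : a' = 0
      · subst ht
        have h1 : W 0 = 0 := W_zero
        have h2 : W 1 = 1 := by
          have := W_rec 0 1 (by norm_num)
          simpa [W_zero, uf] using this
        simp only [zero_add] at he
        rw [h1, h2] at he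
        exact absurd he (by norm_num)
      · exact ih (a' + 2) (by omega) (a' + 1) a' (by omega) (by omega) hAP2
    refine base_spec (a := i) (k := 12 * (k' - a') + j) (b := 12 * (b' - a') + l)
      (W_lt a') (W_lt (a' + 1)) hne (by omega) (by omega) (by omega) (by omega) ?_
    intro c _
    have h := hAP (del c)
    have ek : 12 * k' + j = 12 * a' + (12 * (k' - a') + j) := by omega
    have eb : 12 * b' + l = 12 * a' + (12 * (b' - a') + l) := by omega
    rw [ek, eb, ws_pre2 _ a' i (by omega), ws_pre2 _ a' _ (by omega),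
      ws_pre2 _ a' _ (by omega)] at h
    linear_combination h

end Pool.Agent.R578.ASF
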