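import Mathlib

set_option autoImplicit false
set_option linter.unusedSectionVars false
set_option linter.unusedSimpArgs false

open MeasureTheory Quaternion Real

namespace Pool.Agent.R578.KeyQ

noncomputable section

/-- the group of unit quaternions -/
abbrev SG : Type := Metric.sphere (0 : ℍ[ℝ]) 1

instance : MeasurableSpace SG := borel SG
instance : BorelSpace SG := ⟨rfl⟩
instance : ProperSpace ℍ[ℝ] := FiniteDimensional.proper_real ℍ[ℝ]

/-- Haar measure -/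
def mu : Measure SG := Measure.haar

instance : mu.IsHaarMeasure := by unfold mu; infer_instance

example : CompactSpace SG := inferInstance
example : IsFiniteMeasure mu := inferInstance

/-- rotation `cos t + q sin t` -/
def rt (q : ℍ[ℝ]) (t : ℝ) : ℍ[ℝ] := Real.cos t • (1 : ℍ[ℝ]) + Real.sin t • q

theorem rt_add (q : ℍ[ℝ]) (hq : q * q = -1) (s t : ℝ) : rt q (s + t) = rt q s * rt q t := by
  simp only [rt, Real.cos_add, Real.sin_add, add_mul, mul_add, smul_mul_assoc, mul_smul_comm,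
    one_mul, mul_one, hq, smul_neg]
  module

theorem rt_zero (q : ℍ[ℝ]) : rt q 0 = 1 := by simp [rt]

theorem rt_neg_mul (q : ℍ[ℝ]) (hq : q * q = -1) (t : ℝ) : rt q (-t) * rt q t = 1 := by
  rw [← rt_add q hq, neg_add_cancel, rt_zero]

theorem continuous_rt (q : ℍ[ℝ]) : Continuous (rt q) := by
  unfold rt
  fun_prop

theorem hasDerivAt_rt (q : ℍ[ℝ]) : HasDerivAt (rt q) q 0 := by
  have h1 := ((Real.hasDerivAt_cos 0).smul_const (1 : ℍ[ℝ])).add
    ((Real.hasDerivAt_sin 0).smul_const q)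
  have h2 : (-(Real.sin 0) • (1 : ℍ[ℝ]) + Real.cos 0 • q) = q := by simp
  rw [h2] at h1
  exact h1

theorem star_rt (q : ℍ[ℝ]) (hs : star q = -q) (t : ℝ) : star (rt q t) = rt q (-t) := by
  simp [rt, hs]

theorem norm_rt (q : ℍ[ℝ]) (hq : q * q = -1) (hs : star q = -q) (t : ℝ) : ‖rt q t‖ = 1 := by
  have h1 : rt q t * star (rt q t) = 1 := by
    rw [star_rt q hs, ← rt_add q hq, add_neg_cancel, rt_zero]
  have h2 : ‖rt q t‖ * ‖rt q t‖ = 1 := by
    have := congrArg norm h1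
    rwa [norm_mul, norm_star, norm_one] at this
  have h3 := norm_nonneg (rt q t)
  nlinarith

/-- the rotation as a unit quaternion -/
def rS (q : ℍ[ℝ]) (hq : q * q = -1) (hs : star q = -q) (t : ℝ) : SG :=
  ⟨rt q t, by simpa using norm_rt q hq hs t⟩

theorem continuous_rS (q : ℍ[ℝ]) (hq : q * q = -1) (hs : star q = -q) :
    Continuous (rS q hq hs) := by
  unfold rS
  exact Continuous.subtype_mk (continuous_rt q) _

/-- integration by parts on the group of unit quaternions -/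
theorem ibp (q : ℍ[ℝ]) (hq : q * q = -1) (hs : star q = -q) (f f' : ℍ[ℝ] → ℝ)
    (hf : Continuous fun x : SG => f x) (hf' : Continuous fun x : SG => f' x)
    (h : ∀ x : SG, HasDerivAt (fun t : ℝ => f (rt q t * x)) (f' x) 0) :
    ∫ x : SG, f' x ∂mu = 0 := by
  -- the function `t ↦ ∫ f (rt q t * x)` is constant
  have hconst : ∀ t : ℝ, ∫ x : SG, f (rt q t * x) ∂mu = ∫ x : SG, f x ∂mu := by
    intro t
    exact integral_mul_left_eq_self (μ := mu) (fun x : SG => f x) (rS q hq hs t)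
  have hder : ∀ (x : SG) (t : ℝ), HasDerivAt (fun t : ℝ => f (rt q t * x)) (f' (rt q t * x)) t := by
    intro x t
    have h1 := h (rS q hq hs t * x)
    have h2 : HasDerivAt (fun r : ℝ => f (rt q (r - t) * ((rS q hq hs t * x : SG) : ℍ[ℝ])))
        (f' ((rS q hq hs t * x : SG) : ℍ[ℝ])) t := by
      have h4 : HasDerivAt (fun t_1 : ℝ => f (rt q t_1 * ((rS q hq hs t * x : SG) : ℍ[ℝ])))
        (f' ((rS q hq hs t * x : SG) : ℍ[ℝ])) (t - t) := by rw [sub_self]; exact h1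
      exact h4.comp_sub_const t t
    refine h2.congr_of_eventuallyEq (Filter.Eventually.of_forall fun r => ?_)
    show f (rt q r * x) = f (rt q (r - t) * (rt q t * x))
    rw [← mul_assoc, ← rt_add q hq, sub_add_cancel]
  obtain ⟨C, hC⟩ : ∃ C, ∀ x : SG, ‖f' x‖ ≤ C := by
    obtain ⟨C, hC⟩ := (isCompact_range hf').isBounded.exists_norm_le
    exact ⟨C, fun x => hC _ ⟨x, rfl⟩⟩
  have hcf : ∀ t : ℝ, Continuous fun x : SG => f (rt q t * x) := fun t =>
    hf.comp (continuous_const.mul continuous_id : Continuous fun x : SG => rS q hq hs t * x)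
  have hcf' : ∀ t : ℝ, Continuous fun x : SG => f' (rt q t * x) := fun t =>
    hf'.comp (continuous_const.mul continuous_id : Continuous fun x : SG => rS q hq hs t * x)
  have key := hasDerivAt_integral_of_dominated_loc_of_deriv_le (μ := mu)
    (F := fun (t : ℝ) (x : SG) => f (rt q t * x)) (F' := fun (t : ℝ) (x : SG) => f' (rt q t * x))
    (x₀ := 0) (s := Set.univ) (bound := fun _ => C) Filter.univ_mem
    (Filter.Eventually.of_forall fun t => (hcf t).aestronglyMeasurable)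
    ((hcf 0).integrable_of_hasCompactSupport (HasCompactSupport.of_compactSpace _))
    (hcf' 0).aestronglyMeasurable
    (Filter.Eventually.of_forall fun x t _ => hC (rS q hq hs t * x))
    (integrable_const C)
    (Filter.Eventually.of_forall fun x t _ => hder x t)
  have h0 := key.2
  have hfun : (fun t : ℝ => ∫ x : SG, f (rt q t * x) ∂mu) = fun _ => ∫ x : SG, f x ∂mu :=
    funext hconst
  rw [hfun] at h0
  have h1 := h0.unique (hasDerivAt_const (0 : ℝ) _)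
  simpa [rt_zero] using h1

/-! ### the three quaternion units -/

def qi : ℍ[ℝ] := ⟨0, 1, 0, 0⟩
def qj : ℍ[ℝ] := ⟨0, 0, 1, 0⟩
def qk : ℍ[ℝ] := ⟨0, 0, 0, 1⟩

@[simp] theorem qi_re : qi.re = 0 := rfl
@[simp] theorem qi_imI : qi.imI = 1 := rfl
@[simp] theorem qi_imJ : qi.imJ = 0 := rfl
@[simp] theorem qi_imK : qi.imK = 0 := rfl
@[simp] theorem qj_re : qj.re = 0 := rfl
@[simp] theorem qj_imI : qj.imI = 0 := rfl
@[simp] theorem qj_imJ : qj.imJ = 1 := rfl
@[simp] theorem qj_imK : qj.imK = 0 := rfl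
@[simp] theorem qk_re : qk.re = 0 := rfl
@[simp] theorem qk_imI : qk.imI = 0 := rfl
@[simp] theorem qk_imJ : qk.imJ = 0 := rfl
@[simp] theorem qk_imK : qk.imK = 1 := rfl

theorem qi_qi : qi * qi = -1 := by ext <;> simp
theorem qj_qj : qj * qj = -1 := by ext <;> simp
theorem qk_qk : qk * qk = -1 := by ext <;> simp
theorem qi_qj : qi * qj = qk := by ext <;> simp
theorem qj_qi : qj * qi = -qk := by ext <;> simp
theorem qj_qk : qj * qk = qi := by ext <;> simp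
theorem qk_qj : qk * qj = -qi := by ext <;> simp
theorem qk_qi : qk * qi = qj := by ext <;> simp
theorem qi_qk : qi * qk = -qj := by ext <;> simp
theorem star_qi : star qi = -qi := by ext <;> simp
theorem star_qj : star qj = -qj := by ext <;> simp
theorem star_qk : star qk = -qk := by ext <;> simp

theorem ne_zero_of_mem (x : SG) : (x : ℍ[ℝ]) ≠ 0 := by
  intro h
  have h1 := x.2
  rw [mem_sphere_zero_iff_norm, h, norm_zero] at h1
  exact zero_ne_one h1

section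

variable {E : Type*} [NormedRing E] [NormedAlgebra ℝ E] [CompleteSpace E]

/-- `(s + ψ x)⁻¹` -/
def gg (ψ : ℍ[ℝ] →L[ℝ] E) (s : ℝ) (x : ℍ[ℝ]) : E := Ring.inverse (algebraMap ℝ E s + ψ x)

variable (ψ : ℍ[ℝ] →L[ℝ] E) (hψ : ∀ (s : ℝ) (x : ℍ[ℝ]), (s ≠ 0 ∨ x ≠ 0) → IsUnit (algebraMap ℝ E s + ψ x))

include hψ

theorem gg_mul (s : ℝ) (x : ℍ[ℝ]) (h : s ≠ 0 ∨ x ≠ 0) : gg ψ s x * (algebraMap ℝ E s + ψ x) = 1 :=
  Ring.inverse_mul_cancel _ (hψ s x h)

theorem mul_gg (s : ℝ) (x : ℍ[ℝ]) (h : s ≠ 0 ∨ x ≠ 0) : (algebraMap ℝ E s + ψ x) * gg ψ s x = 1 :=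
  Ring.mul_inverse_cancel _ (hψ s x h)

theorem hasDerivAt_gg {u : ℝ → ℝ} {v : ℝ → ℍ[ℝ]} {u' : ℝ} {v' : ℍ[ℝ]} {r : ℝ}
    (hu : HasDerivAt u u' r) (hv : HasDerivAt v v' r) (h : u r ≠ 0 ∨ v r ≠ 0) :
    HasDerivAt (fun t => gg ψ (u t) (v t))
      (-(gg ψ (u r) (v r) * (algebraMap ℝ E u' + ψ v') * gg ψ (u r) (v r))) r := by
  obtain ⟨w, hw⟩ := hψ _ _ h
  have h1 : HasDerivAt (fun t => algebraMap ℝ E (u t) + ψ (v t)) (algebraMap ℝ E u' + ψ v') r := by
    have h2 : HasDerivAt (fun t => algebraMap ℝ E (u t)) (algebraMap ℝ E u') r := by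
      have := hu.smul_const (1 : E)
      simpa [Algebra.algebraMap_eq_smul_one] using this
    exact h2.add (ψ.hasFDerivAt.comp_hasDerivAt r hv)
  have h3 := hasFDerivAt_ringInverse (𝕜 := ℝ) w
  rw [hw] at h3
  have h4 := h3.comp_hasDerivAt r h1
  have h5 : (w⁻¹ : Eˣ) = gg ψ (u r) (v r) := by
    rw [gg, ← hw, Ring.inverse_unit]
  simpa [h5, mul_assoc, Function.comp_def, gg] using h4

theorem continuous_gg {X : Type*} [TopologicalSpace X] {u : X → ℝ} {v : X → ℍ[ℝ]}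
    (hu : Continuous u) (hv : Continuous v) (h : ∀ r, u r ≠ 0 ∨ v r ≠ 0) :
    Continuous fun t => gg ψ (u t) (v t) := by
  rw [continuous_iff_continuousAt]
  intro r
  obtain ⟨w, hw⟩ := hψ _ _ (h r)
  have h3 := (NormedRing.inverse_continuousAt w)
  have h4 : ContinuousAt (fun t => algebraMap ℝ E (u t) + ψ (v t)) r := by
    have := (continuous_algebraMap ℝ E).comp hu
    exact (this.add (ψ.continuous.comp hv)).continuousAt
  rw [hw] at h3
  exact ContinuousAt.comp (f := fun t => algebraMap ℝ E (u t) + ψ (v t)) h3 h4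

/-- `(s + ψ x)⁻¹ ψ (c x)` -/
def XX (ψ : ℍ[ℝ] →L[ℝ] E) (s : ℝ) (c x : ℍ[ℝ]) : E := gg ψ s x * ψ (c * x)

omit hψ in
theorem hasDerivAt_curve (q x : ℍ[ℝ]) : HasDerivAt (fun t : ℝ => rt q t * x) (q * x) 0 :=
  (hasDerivAt_rt q).mul_const x

theorem hasDerivAt_gg_curve (s : ℝ) (q : ℍ[ℝ]) (x : SG) :
    HasDerivAt (fun t : ℝ => gg ψ s (rt q t * x)) (-(XX ψ s q x * gg ψ s x)) 0 := by
  have h1 := hasDerivAt_gg ψ hψ (u := fun _ => s) (v := fun t => rt q t * (x : ℍ[ℝ]))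
    (hasDerivAt_const (0 : ℝ) s) (hasDerivAt_curve q x) (Or.inr (by simpa [rt_zero] using ne_zero_of_mem x))
  simpa [rt_zero, XX] using h1

theorem hasDerivAt_XX_curve (s : ℝ) (q c : ℍ[ℝ]) (x : SG) :
    HasDerivAt (fun t : ℝ => XX ψ s c (rt q t * x))
      (-(XX ψ s q x * XX ψ s c x) + XX ψ s (c * q) x) 0 := by
  have h1 : HasDerivAt (fun t : ℝ => ψ (c * (rt q t * x))) (ψ (c * (q * x))) 0 :=
    ψ.hasFDerivAt.comp_hasDerivAt (0 : ℝ) ((hasDerivAt_curve q x).const_mul c)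
  have h2 := (hasDerivAt_gg_curve ψ hψ s q x).mul h1
  unfold XX
  refine h2.congr_deriv ?_
  simp only [rt_zero, one_mul, XX]
  noncomm_ring

theorem hasDerivAt_gg_s (s : ℝ) (x : SG) :
    HasDerivAt (fun r : ℝ => gg ψ r x) (-(gg ψ s x * gg ψ s x)) s := by
  have h1 := hasDerivAt_gg ψ hψ (u := fun r => r) (v := fun _ => (x : ℍ[ℝ]))
    (hasDerivAt_id s) (hasDerivAt_const s (x : ℍ[ℝ])) (Or.inr (ne_zero_of_mem x))
  simpa using h1

theorem hasDerivAt_XX_s (s : ℝ) (c : ℍ[ℝ]) (x : SG) :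
    HasDerivAt (fun r : ℝ => XX ψ r c x) (-(gg ψ s x * XX ψ s c x)) s := by
  have h1 := (hasDerivAt_gg_s ψ hψ s x).mul_const (ψ (c * x))
  refine h1.congr_deriv ?_
  simp only [XX]
  noncomm_ring

theorem continuous_XX {X : Type*} [TopologicalSpace X] {u : X → ℝ} {v : X → ℍ[ℝ]} (c : ℍ[ℝ])
    (hu : Continuous u) (hv : Continuous v) (h : ∀ r, u r ≠ 0 ∨ v r ≠ 0) :
    Continuous fun t => XX ψ (u t) c (v t) := by
  unfold XX
  exact (continuous_gg ψ hψ hu hv h).mul (ψ.continuous.comp (continuous_const.mul hv))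

omit [CompleteSpace E] hψ in
theorem XX_neg (s : ℝ) (c x : ℍ[ℝ]) : XX ψ s (-c) x = -XX ψ s c x := by
  simp [XX]

/-- the three-form on the frame -/
def tt (ψ : ℍ[ℝ] →L[ℝ] E) (τ : E →L[ℝ] ℝ) (s : ℝ) (x : ℍ[ℝ]) : ℝ :=
  τ (XX ψ s qi x * XX ψ s qj x * XX ψ s qk x - XX ψ s qi x * XX ψ s qk x * XX ψ s qj x)

/-- its derivative in `s`, as an expression -/
def dt (τ : E →L[ℝ] ℝ) (g A B C : E) : ℝ :=
  τ (((-(g * A)) * B + A * (-(g * B))) * C + A * B * (-(g * C)) -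
    (((-(g * A)) * C + A * (-(g * C))) * B + A * C * (-(g * B))))

def d1 (τ : E →L[ℝ] ℝ) (g A B C : E) : ℝ :=
  τ (-(A * g) * (B * C - C * B) + g * (((-(A * B) + -C) * C + B * (-(A * C) + B)) -
    ((-(A * C) + B) * B + C * (-(A * B) + -C))))

def d2 (τ : E →L[ℝ] ℝ) (g A B C : E) : ℝ :=
  τ (-(B * g) * (A * C - C * A) + g * (((-(B * A) + C) * C + A * (-(B * C) + -A)) -
    ((-(B * C) + -A) * A + C * (-(B * A) + C))))

def d3 (τ : E →L[ℝ] ℝ) (g A B C : E) : ℝ :=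
  τ (-(C * g) * (A * B - B * A) + g * (((-(C * A) + -B) * B + A * (-(C * B) + A)) -
    ((-(C * B) + A) * A + B * (-(C * A) + -B))))

omit [CompleteSpace E] hψ in
theorem dt_eq (τ : E →L[ℝ] ℝ) (hτ : ∀ a b, τ (a * b) = τ (b * a)) (g A B C : E) :
    dt τ g A B C = d1 τ g A B C - d2 τ g A B C + d3 τ g A B C := by
  have e1 := hτ A (g * B * C)
  have e2 := hτ A (g * C * B)
  have e3 := hτ (A * B) (g * C)
  have e4 := hτ (A * C) (g * B)
  have e5 := hτ B (g * A * C)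
  have e6 := hτ B (g * C * A)
  have e7 := hτ C (g * A * B)
  have e8 := hτ C (g * B * A)
  simp only [dt, d1, d2, d3, mul_add, add_mul, mul_sub, sub_mul, neg_mul, mul_neg, neg_neg,
    map_add, map_sub, map_neg, ← mul_assoc] at *
  linarith

variable (τ : E →L[ℝ] ℝ)

theorem hasDerivAt_tt (s : ℝ) (x : SG) :
    HasDerivAt (fun r : ℝ => tt ψ τ r x)
      (dt τ (gg ψ s x) (XX ψ s qi x) (XX ψ s qj x) (XX ψ s qk x)) s := by
  have hA := hasDerivAt_XX_s ψ hψ s qi x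
  have hB := hasDerivAt_XX_s ψ hψ s qj x
  have hC := hasDerivAt_XX_s ψ hψ s qk x
  exact τ.hasFDerivAt.comp_hasDerivAt s (((hA.mul hB).mul hC).sub ((hA.mul hC).mul hB))

theorem cont_gg (s : ℝ) : Continuous fun x : SG => gg ψ s x :=
  continuous_gg ψ hψ continuous_const continuous_subtype_val (fun x => Or.inr (ne_zero_of_mem x))

theorem cont_XX (s : ℝ) (c : ℍ[ℝ]) : Continuous fun x : SG => XX ψ s c x :=
  continuous_XX ψ hψ c continuous_const continuous_subtype_val (fun x => Or.inr (ne_zero_of_mem x))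

theorem int_d1 (s : ℝ) :
    ∫ x : SG, d1 τ (gg ψ s x) (XX ψ s qi x) (XX ψ s qj x) (XX ψ s qk x) ∂mu = 0 := by
  have c0 := cont_gg ψ hψ s
  have c1 := cont_XX ψ hψ s qi
  have c2 := cont_XX ψ hψ s qj
  have c3 := cont_XX ψ hψ s qk
  refine ibp qi qi_qi star_qi (fun x => τ (gg ψ s x * (XX ψ s qj x * XX ψ s qk x -
    XX ψ s qk x * XX ψ s qj x)))
    (fun x => d1 τ (gg ψ s x) (XX ψ s qi x) (XX ψ s qj x) (XX ψ s qk x)) (by fun_prop)
    (by unfold d1; fun_prop) ?_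
  intro x
  have h0 := hasDerivAt_gg_curve ψ hψ s qi x
  have h2 := hasDerivAt_XX_curve ψ hψ s qi qj x
  have h3 := hasDerivAt_XX_curve ψ hψ s qi qk x
  rw [qj_qi, XX_neg] at h2
  rw [qk_qi] at h3
  have h4 := τ.hasFDerivAt.comp_hasDerivAt (0 : ℝ) (h0.mul ((h2.mul h3).sub (h3.mul h2)))
  refine h4.congr_deriv ?_
  simp only [Pi.mul_apply, Pi.sub_apply, rt_zero, one_mul, d1, neg_mul]

theorem int_d2 (s : ℝ) :
    ∫ x : SG, d2 τ (gg ψ s x) (XX ψ s qi x) (XX ψ s qj x) (XX ψ s qk x) ∂mu = 0 := by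
  have c0 := cont_gg ψ hψ s
  have c1 := cont_XX ψ hψ s qi
  have c2 := cont_XX ψ hψ s qj
  have c3 := cont_XX ψ hψ s qk
  refine ibp qj qj_qj star_qj (fun x => τ (gg ψ s x * (XX ψ s qi x * XX ψ s qk x -
    XX ψ s qk x * XX ψ s qi x)))
    (fun x => d2 τ (gg ψ s x) (XX ψ s qi x) (XX ψ s qj x) (XX ψ s qk x)) (by fun_prop)
    (by unfold d2; fun_prop) ?_
  intro x
  have h0 := hasDerivAt_gg_curve ψ hψ s qj x
  have h2 := hasDerivAt_XX_curve ψ hψ s qj qi x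
  have h3 := hasDerivAt_XX_curve ψ hψ s qj qk x
  rw [qi_qj] at h2
  rw [qk_qj, XX_neg] at h3
  have h4 := τ.hasFDerivAt.comp_hasDerivAt (0 : ℝ) (h0.mul ((h2.mul h3).sub (h3.mul h2)))
  refine h4.congr_deriv ?_
  simp only [Pi.mul_apply, Pi.sub_apply, rt_zero, one_mul, d2, neg_mul]

theorem int_d3 (s : ℝ) :
    ∫ x : SG, d3 τ (gg ψ s x) (XX ψ s qi x) (XX ψ s qj x) (XX ψ s qk x) ∂mu = 0 := by
  have c0 := cont_gg ψ hψ s
  have c1 := cont_XX ψ hψ s qi
  have c2 := cont_XX ψ hψ s qj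
  have c3 := cont_XX ψ hψ s qk
  refine ibp qk qk_qk star_qk (fun x => τ (gg ψ s x * (XX ψ s qi x * XX ψ s qj x -
    XX ψ s qj x * XX ψ s qi x)))
    (fun x => d3 τ (gg ψ s x) (XX ψ s qi x) (XX ψ s qj x) (XX ψ s qk x)) (by fun_prop)
    (by unfold d3; fun_prop) ?_
  intro x
  have h0 := hasDerivAt_gg_curve ψ hψ s qk x
  have h2 := hasDerivAt_XX_curve ψ hψ s qk qi x
  have h3 := hasDerivAt_XX_curve ψ hψ s qk qj x
  rw [qi_qk, XX_neg] at h2
  rw [qj_qk] at h3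
  have h4 := τ.hasFDerivAt.comp_hasDerivAt (0 : ℝ) (h0.mul ((h2.mul h3).sub (h3.mul h2)))
  refine h4.congr_deriv ?_
  simp only [Pi.mul_apply, Pi.sub_apply, rt_zero, one_mul, d3, neg_mul]

variable (hτ : ∀ a b, τ (a * b) = τ (b * a))

include hτ

theorem int_dt (s : ℝ) :
    ∫ x : SG, dt τ (gg ψ s x) (XX ψ s qi x) (XX ψ s qj x) (XX ψ s qk x) ∂mu = 0 := by
  have c0 := cont_gg ψ hψ s
  have c1 := cont_XX ψ hψ s qi
  have c2 := cont_XX ψ hψ s qj
  have c3 := cont_XX ψ hψ s qk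
  have i1 : Integrable (fun x : SG => d1 τ (gg ψ s x) (XX ψ s qi x) (XX ψ s qj x) (XX ψ s qk x)) mu :=
    (by unfold d1; fun_prop : Continuous fun x : SG =>
      d1 τ (gg ψ s x) (XX ψ s qi x) (XX ψ s qj x) (XX ψ s qk x)).integrable_of_hasCompactSupport
      (HasCompactSupport.of_compactSpace _)
  have i2 : Integrable (fun x : SG => d2 τ (gg ψ s x) (XX ψ s qi x) (XX ψ s qj x) (XX ψ s qk x)) mu :=
    (by unfold d2; fun_prop : Continuous fun x : SG =>
      d2 τ (gg ψ s x) (XX ψ s qi x) (XX ψ s qj x) (XX ψ s qk x)).integrable_of_hasCompactSupport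
      (HasCompactSupport.of_compactSpace _)
  have i3 : Integrable (fun x : SG => d3 τ (gg ψ s x) (XX ψ s qi x) (XX ψ s qj x) (XX ψ s qk x)) mu :=
    (by unfold d3; fun_prop : Continuous fun x : SG =>
      d3 τ (gg ψ s x) (XX ψ s qi x) (XX ψ s qj x) (XX ψ s qk x)).integrable_of_hasCompactSupport
      (HasCompactSupport.of_compactSpace _)
  simp_rw [dt_eq τ hτ]
  have i12 : Integrable (fun x : SG => d1 τ (gg ψ s x) (XX ψ s qi x) (XX ψ s qj x) (XX ψ s qk x) -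
      d2 τ (gg ψ s x) (XX ψ s qi x) (XX ψ s qj x) (XX ψ s qk x)) mu := i1.sub i2
  rw [integral_add i12 i3, integral_sub i1 i2, int_d1 ψ hψ, int_d2 ψ hψ, int_d3 ψ hψ]
  norm_num

/-- `Φ(s)` is constant -/
theorem hasDerivAt_Phi (s : ℝ) : HasDerivAt (fun r : ℝ => ∫ x : SG, tt ψ τ r x ∂mu) 0 s := by
  have cdt : Continuous fun p : ℝ × SG => dt τ (gg ψ p.1 p.2) (XX ψ p.1 qi p.2) (XX ψ p.1 qj p.2)
      (XX ψ p.1 qk p.2) := by
    have h0 : Continuous fun p : ℝ × SG => gg ψ p.1 p.2 :=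
      continuous_gg ψ hψ continuous_fst (continuous_subtype_val.comp continuous_snd)
        (fun p => Or.inr (ne_zero_of_mem p.2))
    have h1 : ∀ c : ℍ[ℝ], Continuous fun p : ℝ × SG => XX ψ p.1 c p.2 := fun c =>
      continuous_XX ψ hψ c continuous_fst (continuous_subtype_val.comp continuous_snd)
        (fun p => Or.inr (ne_zero_of_mem p.2))
    have h2 := h1 qi
    have h3 := h1 qj
    have h4 := h1 qk
    unfold dt
    fun_prop
  obtain ⟨C, hC⟩ : ∃ C, ∀ p ∈ (Metric.closedBall s 1 ×ˢ Set.univ : Set (ℝ × SG)),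
      ‖dt τ (gg ψ p.1 p.2) (XX ψ p.1 qi p.2) (XX ψ p.1 qj p.2) (XX ψ p.1 qk p.2)‖ ≤ C :=
    ((isCompact_closedBall s 1).prod isCompact_univ).exists_bound_of_continuousOn cdt.continuousOn
  have ctt : ∀ r : ℝ, Continuous fun x : SG => tt ψ τ r x := by
    intro r
    have h2 := cont_XX ψ hψ r qi
    have h3 := cont_XX ψ hψ r qj
    have h4 := cont_XX ψ hψ r qk
    unfold tt
    fun_prop
  have key := hasDerivAt_integral_of_dominated_loc_of_deriv_le (μ := mu)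
    (F := fun (r : ℝ) (x : SG) => tt ψ τ r x)
    (F' := fun (r : ℝ) (x : SG) => dt τ (gg ψ r x) (XX ψ r qi x) (XX ψ r qj x) (XX ψ r qk x))
    (x₀ := s) (s := Metric.closedBall s 1) (bound := fun _ => C)
    (Metric.closedBall_mem_nhds s one_pos)
    (Filter.Eventually.of_forall fun t => (ctt t).aestronglyMeasurable)
    ((ctt s).integrable_of_hasCompactSupport (HasCompactSupport.of_compactSpace _))
    ((cdt.comp (by fun_prop : Continuous fun x : SG => (s, x))).aestronglyMeasurable)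
    (Filter.Eventually.of_forall fun x t ht => hC (t, x) ⟨ht, Set.mem_univ _⟩)
    (integrable_const C)
    (Filter.Eventually.of_forall fun x t _ => hasDerivAt_tt ψ hψ τ t x)
  have h0 := key.2
  rwa [int_dt ψ hψ τ hτ s] at h0

theorem Phi_const (s r : ℝ) : ∫ x : SG, tt ψ τ s x ∂mu = ∫ x : SG, tt ψ τ r x ∂mu :=
  is_const_of_deriv_eq_zero (fun s => (hasDerivAt_Phi ψ hψ τ hτ s).differentiableAt)
    (fun s => (hasDerivAt_Phi ψ hψ τ hτ s).deriv) s r

omit hτ in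
theorem gg_scale (e : ℝ) (he : 0 < e) (x : ℍ[ℝ]) : gg ψ e⁻¹ x = e • gg ψ 1 (e • x) := by
  have h1 := gg_mul ψ hψ 1 (e • x) (Or.inl one_ne_zero)
  have h2 := mul_gg ψ hψ e⁻¹ x (Or.inl (inv_ne_zero he.ne'))
  have h3 : algebraMap ℝ E 1 + ψ (e • x) = e • (algebraMap ℝ E e⁻¹ + ψ x) := by
    rw [smul_add, map_smul, Algebra.algebraMap_eq_smul_one e⁻¹, smul_smul, mul_inv_cancel₀ he.ne',
      one_smul, map_one]
  rw [h3] at h1
  have h4 : e • gg ψ 1 (e • x) * (algebraMap ℝ E e⁻¹ + ψ x) = 1 := by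
    rw [smul_mul_assoc, ← mul_smul_comm, h1]
  calc gg ψ e⁻¹ x = (e • gg ψ 1 (e • x) * (algebraMap ℝ E e⁻¹ + ψ x)) * gg ψ e⁻¹ x := by
        rw [h4, one_mul]
    _ = e • gg ψ 1 (e • x) := by rw [mul_assoc, h2, mul_one]

omit hτ in
theorem XX_scale (e : ℝ) (he : 0 < e) (c x : ℍ[ℝ]) : XX ψ e⁻¹ c x = XX ψ 1 c (e • x) := by
  unfold XX
  rw [gg_scale ψ hψ e he, mul_smul_comm, map_smul, smul_mul_assoc, mul_smul_comm]

omit hτ in
theorem tt_scale (e : ℝ) (he : 0 < e) (x : ℍ[ℝ]) : tt ψ τ e⁻¹ x = tt ψ τ 1 (e • x) := by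
  unfold tt
  rw [XX_scale ψ hψ e he, XX_scale ψ hψ e he, XX_scale ψ hψ e he]

omit hτ in
theorem cont_F : Continuous fun e : ℝ => ∫ x : SG, tt ψ τ 1 (e • (x : ℍ[ℝ])) ∂mu := by
  have h1 : ∀ c : ℍ[ℝ], Continuous fun p : ℝ × SG => XX ψ 1 c (p.1 • (p.2 : ℍ[ℝ])) := fun c =>
    continuous_XX ψ hψ c continuous_const
      (continuous_fst.smul (continuous_subtype_val.comp continuous_snd))
      (fun p => Or.inl one_ne_zero)
  have h2 := h1 qi
  have h3 := h1 qj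
  have h4 := h1 qk
  have h5 : Continuous fun p : ℝ × SG => tt ψ τ 1 (p.1 • (p.2 : ℍ[ℝ])) := by
    unfold tt
    fun_prop
  have h6 := continuous_parametric_integral_of_continuous (μ := mu)
    (f := fun (e : ℝ) (x : SG) => tt ψ τ 1 (e • (x : ℍ[ℝ]))) h5 (s := Set.univ) isCompact_univ
  simpa using h6

theorem Phi_zero : ∫ x : SG, tt ψ τ 0 x ∂mu = 0 := by
  have h1 : Filter.Tendsto (fun e : ℝ => ∫ x : SG, tt ψ τ 1 (e • (x : ℍ[ℝ])) ∂mu)
      (nhdsWithin 0 (Set.Ioi 0)) (nhds (∫ x : SG, tt ψ τ 1 ((0 : ℝ) • (x : ℍ[ℝ])) ∂mu)) :=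
    ((cont_F ψ hψ τ).tendsto 0).mono_left nhdsWithin_le_nhds
  have h2 : ∫ x : SG, tt ψ τ 1 ((0 : ℝ) • (x : ℍ[ℝ])) ∂mu = 0 := by
    simp [tt, XX]
  rw [h2] at h1
  have h3 : (fun _ : ℝ => ∫ x : SG, tt ψ τ 0 x ∂mu) =ᶠ[nhdsWithin 0 (Set.Ioi 0)]
      (fun e : ℝ => ∫ x : SG, tt ψ τ 1 (e • (x : ℍ[ℝ])) ∂mu) := by
    filter_upwards [self_mem_nhdsWithin] with e he
    have he' : 0 < e := he
    rw [Phi_const ψ hψ τ hτ 0 e⁻¹]
    refine integral_congr_ae (Filter.Eventually.of_forall fun x => ?_)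
    exact tt_scale ψ hψ τ e he' x
  have h4 := h1.congr' h3.symm
  exact tendsto_nhds_unique tendsto_const_nhds h4

variable (J : E) (hJ : J * J = -1) (hJψ : ∀ x, ψ (qi * x) = J * ψ x)

include hJ hJψ

omit hτ in
theorem A_sq (x : SG) : XX ψ 0 qi x * XX ψ 0 qi x = -1 := by
  have h1 := gg_mul ψ hψ 0 x (Or.inr (ne_zero_of_mem x))
  have h2 := mul_gg ψ hψ 0 x (Or.inr (ne_zero_of_mem x))
  rw [map_zero, zero_add] at h1 h2
  unfold XX
  rw [hJψ]
  calc gg ψ 0 x * (J * ψ x) * (gg ψ 0 x * (J * ψ x))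
      = gg ψ 0 x * J * (ψ x * gg ψ 0 x) * (J * ψ x) := by noncomm_ring
    _ = gg ψ 0 x * (J * J) * ψ x := by rw [h2]; noncomm_ring
    _ = -1 := by rw [hJ, mul_neg, mul_one, neg_mul, h1]

omit hτ hJ in
theorem C_eq (x : SG) : XX ψ 0 qk x = XX ψ 0 qi x * XX ψ 0 qj x := by
  have h2 := mul_gg ψ hψ 0 x (Or.inr (ne_zero_of_mem x))
  rw [map_zero, zero_add] at h2
  unfold XX
  rw [← qi_qj, mul_assoc, hJψ, hJψ]
  calc gg ψ 0 x * (J * ψ (qj * x)) = gg ψ 0 x * J * (1 : E) * ψ (qj * x) := by noncomm_ring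
    _ = gg ψ 0 x * J * (ψ x * gg ψ 0 x) * ψ (qj * x) := by rw [h2]
    _ = gg ψ 0 x * (J * ψ x) * (gg ψ 0 x * ψ (qj * x)) := by noncomm_ring

omit hτ in
theorem tt_zero_eq (x : SG) : tt ψ τ 0 x = τ (XX ψ 0 qj x * XX ψ 0 qj x) +
    τ (XX ψ 0 qk x * XX ψ 0 qk x) := by
  have hA := A_sq ψ hψ J hJ hJψ x
  have hC := C_eq ψ hψ J hJψ x
  unfold tt
  set A := XX ψ 0 qi x
  set B := XX ψ 0 qj x
  set C := XX ψ 0 qk x
  have h1 : A * B * C - A * C * B = C * C + B * B := by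
    have e1 : A * B * C = C * C := by rw [← hC]
    have e2 : A * C * B = -(B * B) := by
      rw [hC, ← mul_assoc, hA, neg_mul, one_mul, neg_mul]
    rw [e1, e2, sub_neg_eq_add]
  rw [h1, map_add, add_comm]

omit hτ hJ hJψ in
theorem XX_neg_one (x : SG) : XX ψ 0 (-1) x = -1 := by
  have h1 := gg_mul ψ hψ 0 x (Or.inr (ne_zero_of_mem x))
  rw [map_zero, zero_add] at h1
  unfold XX
  rw [neg_mul, one_mul, map_neg, mul_neg, h1]

omit hτ hJ hJψ in
theorem int_sq (q : ℍ[ℝ]) (hq : q * q = -1) (hs : star q = -q) :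
    ∫ x : SG, (τ (XX ψ 0 q x * XX ψ 0 q x) + τ 1) ∂mu = 0 := by
  have c1 := cont_XX ψ hψ 0 q
  have h := ibp q hq hs (fun x => -τ (XX ψ 0 q x)) (fun x => τ (XX ψ 0 q x * XX ψ 0 q x) + τ 1)
    (by fun_prop) (by fun_prop) ?_
  · exact h
  intro x
  have h1 := hasDerivAt_XX_curve ψ hψ 0 q q x
  rw [hq, XX_neg_one ψ hψ x] at h1
  have h2 := (τ.hasFDerivAt.comp_hasDerivAt (0 : ℝ) h1).neg
  refine h2.congr_deriv ?_
  rw [map_add, map_neg, map_neg]
  ring

/-- **Key lemma.** -/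
theorem key : τ 1 = 0 := by
  have h1 := int_sq ψ hψ τ qj qj_qj star_qj
  have h2 := int_sq ψ hψ τ qk qk_qk star_qk
  have h3 := Phi_zero ψ hψ τ hτ
  simp_rw [tt_zero_eq ψ hψ τ J hJ hJψ] at h3
  have cB := cont_XX ψ hψ 0 qj
  have cC := cont_XX ψ hψ 0 qk
  have iB : Integrable (fun x : SG => τ (XX ψ 0 qj x * XX ψ 0 qj x)) mu :=
    (by fun_prop : Continuous fun x : SG => τ (XX ψ 0 qj x * XX ψ 0 qj x)).integrable_of_hasCompactSupport
      (HasCompactSupport.of_compactSpace _)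
  have iC : Integrable (fun x : SG => τ (XX ψ 0 qk x * XX ψ 0 qk x)) mu :=
    (by fun_prop : Continuous fun x : SG => τ (XX ψ 0 qk x * XX ψ 0 qk x)).integrable_of_hasCompactSupport
      (HasCompactSupport.of_compactSpace _)
  rw [integral_add iB (integrable_const _), integral_const] at h1
  rw [integral_add iC (integrable_const _), integral_const] at h2
  rw [integral_add iB iC] at h3
  have h4 : mu.real Set.univ • τ 1 = 0 := by linarith
  have h5 : mu.real Set.univ ≠ 0 := by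
    have h6 : mu Set.univ ≠ 0 := by
      have := isOpen_univ.measure_pos mu Set.univ_nonempty
      exact this.ne'
    exact (ENNReal.toReal_pos h6 (measure_ne_top _ _)).ne'
  rcases smul_eq_zero.mp h4 with h | h
  · exact absurd h h5
  · exact h

end

end

end Pool.Agent.R578.KeyQ
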