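import Mathlib

/-!
# Drawing non-crossing graphs on an interval with a state machine

A state `s` carries the images `P s`, `Q s` of the two ends of a base edge, the image `M s` of the
apex of the triangle on it, the states `L s`, `R s` of the two other sides of that triangle, and a
region `Reg s` in which everything beyond the base edge is placed.
-/

namespace Pool.Agent.R578.OP

/-- Abstract machine. -/
structure Machine (A : Type*) (ok : A → A → Prop) where
  σ : Type
  P : σ → A
  Q : σ → A
  M : σ → A
  L : σ → σ
  R : σ → σ
  Reg : σ → Set A
  PL : ∀ s, P (L s) = P s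
  QL : ∀ s, Q (L s) = M s
  PR : ∀ s, P (R s) = M s
  QR : ∀ s, Q (R s) = Q s
  hok : ∀ s, ok (P s) (Q s)
  MReg : ∀ s, M s ∈ Reg s
  Lsub : ∀ s, Reg (L s) ⊆ Reg s
  Rsub : ∀ s, Reg (R s) ⊆ Reg s
  ML : ∀ s, M s ∉ Reg (L s)
  MR : ∀ s, M s ∉ Reg (R s)
  disj : ∀ s x, x ∈ Reg (L s) → x ∈ Reg (R s) → False

theorem choose_apex (E : ℕ → ℕ → Prop)
    (hE : ∀ x y z w, x < y → y < z → z < w → E x z → E y w → False)
    (a b : ℕ) (hab : a + 1 < b) :
    ∃ m, a < m ∧ m < b ∧ (∀ x, m < x → x < b → ¬ E a x) ∧
      (∀ x y, a < x → x < m → m < y → ¬ E x y) := by
  classical
  by_cases h : ∃ x, a < x ∧ x < b ∧ E a x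
  · -- the largest neighbour
    obtain ⟨x0, hx0⟩ := h
    let S := (Finset.range b).filter (fun x => a < x ∧ x < b ∧ E a x)
    have hS : S.Nonempty := ⟨x0, by simp [S]; exact ⟨hx0.2.1, hx0⟩⟩
    have hmem := S.max'_mem hS
    simp only [S, Finset.mem_filter, Finset.mem_range] at hmem
    refine ⟨S.max' hS, hmem.2.1, hmem.2.2.1, ?_, ?_⟩
    · intro x hx hxb hEx
      have : x ∈ S := by
        simp only [S, Finset.mem_filter, Finset.mem_range]
        exact ⟨hxb, lt_trans hmem.2.1 hx, hxb, hEx⟩
      exact absurd (S.le_max' x this) (not_le.mpr hx)
    · intro x y hax hxm hmy hxy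
      exact hE a x _ y hax hxm hmy hmem.2.2.2 hxy
  · refine ⟨a + 1, by omega, hab, ?_, ?_⟩
    · intro x hx hxb hEx
      exact h ⟨x, by omega, hxb, hEx⟩
    · intro x y hax hxm
      omega

theorem Machine.draw {A : Type*} {ok : A → A → Prop} (K : Machine A ok)
    (E : ℕ → ℕ → Prop)
    (hE : ∀ x y z w, x < y → y < z → z < w → E x z → E y w → False) :
    ∀ n a b, b - a ≤ n → a < b → ∀ s : K.σ, ∃ f : ℕ → A, f a = K.P s ∧ f b = K.Q s ∧
      (∀ x, a < x → x < b → f x ∈ K.Reg s) ∧
      (∀ x y, a < x → x < b → a < y → y < b → f x = f y → x = y) ∧
      (∀ x y, a ≤ x → x < y → y ≤ b → (E x y ∨ (x = a ∧ y = b)) → ok (f x) (f y)) := by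
  intro n
  induction n with
  | zero => intro a b h1 h2; omega
  | succ n ih =>
    intro a b hn hab s
    by_cases h1 : b = a + 1
    · subst h1
      refine ⟨fun x => if x = a then K.P s else K.Q s, by simp, by simp, ?_, ?_, ?_⟩
      · intro x hx hx'; omega
      · intro x y hx hx'; omega
      · intro x y hx hxy hy _
        have e1 : x = a := by omega
        have e2 : y = a + 1 := by omega
        subst e1; subst e2
        simpa using K.hok s
    · obtain ⟨m, ham, hmb, hm1, hm2⟩ := choose_apex E hE a b (by omega)
      obtain ⟨f, fa, fm, fReg, finj, fok⟩ := ih a m (by omega) ham (K.L s)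
      obtain ⟨g, gm, gb, gReg, ginj, gok⟩ := ih m b (by omega) hmb (K.R s)
      rw [K.PL] at fa
      rw [K.QL] at fm
      rw [K.PR] at gm
      rw [K.QR] at gb
      refine ⟨fun x => if x ≤ m then f x else g x, ?_, ?_, ?_, ?_, ?_⟩
      · simp [ham.le, fa]
      · have : ¬ b ≤ m := by omega
        simp [this, gb]
      · intro x hx hx'
        rcases lt_trichotomy x m with h | h | h
        · simp only [h.le, if_true]
          exact K.Lsub s (fReg x hx h)
        · subst h
          simp only [le_refl, if_true, fm]
          exact K.MReg s
        · have : ¬ x ≤ m := by omega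
          simp only [this, if_false]
          exact K.Rsub s (gReg x h hx')
      · intro x y hx hx' hy hy' hxy
        rcases lt_trichotomy x m with h | h | h
        · rcases lt_trichotomy y m with h' | h' | h'
          · simp only [h.le, h'.le, if_true] at hxy
            exact finj x y hx h hy h' hxy
          · subst h'
            simp only [h.le, le_refl, if_true, fm] at hxy
            have := fReg x hx h
            rw [hxy] at this
            exact absurd this (K.ML s)
          · have h'' : ¬ y ≤ m := by omega
            simp only [h.le, h'', if_true, if_false] at hxy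
            have e1 := fReg x hx h
            have e2 := gReg y h' hy'
            rw [← hxy] at e2
            exact (K.disj s _ e1 e2).elim
        · subst h
          rcases lt_trichotomy y x with h' | h' | h'
          · simp only [h'.le, le_refl, if_true, fm] at hxy
            have := fReg y hy h'
            rw [← hxy] at this
            exact absurd this (K.ML s)
          · exact h'.symm
          · have h'' : ¬ y ≤ x := by omega
            simp only [le_refl, h'', if_true, if_false, fm] at hxy
            have := gReg y h' hy'
            rw [← hxy] at this
            exact absurd this (K.MR s)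
        · have hx'' : ¬ x ≤ m := by omega
          rcases lt_trichotomy y m with h' | h' | h'
          · simp only [hx'', h'.le, if_true, if_false] at hxy
            have e1 := fReg y hy h'
            have e2 := gReg x h hx'
            rw [hxy] at e2
            exact (K.disj s _ e1 e2).elim
          · subst h'
            simp only [hx'', le_refl, if_true, if_false, fm] at hxy
            have := gReg x h hx'
            rw [hxy] at this
            exact absurd this (K.MR s)
          · have h'' : ¬ y ≤ m := by omega
            simp only [hx'', h'', if_false] at hxy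
            exact ginj x y h hx' h' hy' hxy
      · intro x y hx hxy hy hxyE
        by_cases hab' : x = a ∧ y = b
        · obtain ⟨rfl, rfl⟩ := hab'
          have h2 : ¬ y ≤ m := by omega
          simp only [ham.le, h2, if_true, if_false, fa, gb]
          exact K.hok s
        · have hExy : E x y := by tauto
          by_cases hym : y ≤ m
          · have hxm : x ≤ m := by omega
            simp only [hym, hxm, if_true]
            exact fok x y hx hxy hym (Or.inl hExy)
          · by_cases hxm : m ≤ x
            · have hgx : (if x ≤ m then f x else g x) = g x := by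
                by_cases h : x ≤ m
                · have : x = m := le_antisymm h hxm
                  subst this
                  simp [fm, gm]
                · simp [h]
              simp only [hgx, hym, if_false]
              exact gok x y hxm hxy hy (Or.inl hExy)
            · exfalso
              by_cases hxa : x = a
              · subst hxa
                have : y < b := lt_of_le_of_ne hy (fun h => hab' ⟨rfl, h⟩)
                exact hm1 y (by omega) this hExy
              · exact hm2 x y (by omega) (by omega) (by omega) hExy

end Pool.Agent.R578.OP
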