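import Mathlib
import Pool.Agent.R578.OPMach

/-!
# The concrete machine with values in `ℤ[X]`

All edges have difference `± X^k` or `± X^k (1 - X)`.
-/

namespace Pool.Agent.R578.OP

open Polynomial

/-- sign of a Boolean -/
def sg (b : Bool) : ℤ := if b then 1 else -1

@[simp] theorem sg_true : sg true = 1 := rfl
@[simp] theorem sg_false : sg false = -1 := rfl

/-- `p + X^k (x0 + X (x1 + X r))` -/
noncomputable def pt (p : ℤ[X]) (k : ℕ) (x0 x1 : ℤ) (r : ℤ[X]) : ℤ[X] :=
  p + X ^ k * (C x0 + X * (C x1 + X * r))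

theorem CX_inj {x y : ℤ} {r r' : ℤ[X]} (h : C x + X * r = C y + X * r') : x = y ∧ r = r' := by
  have h0 : x = y := by
    have := congrArg (fun q => coeff q 0) h
    simpa using this
  subst h0
  refine ⟨rfl, ?_⟩
  have h1 : X * r = X * r' := add_left_cancel h
  exact mul_left_cancel₀ X_ne_zero h1

theorem pt_inj {p : ℤ[X]} {k : ℕ} {x0 x1 y0 y1 : ℤ} {r r' : ℤ[X]}
    (h : pt p k x0 x1 r = pt p k y0 y1 r') : x0 = y0 ∧ x1 = y1 ∧ r = r' := by
  unfold pt at h
  have h1 := mul_left_cancel₀ (pow_ne_zero k X_ne_zero) (add_left_cancel h)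
  obtain ⟨e0, h2⟩ := CX_inj h1
  obtain ⟨e1, h3⟩ := CX_inj h2
  exact ⟨e0, e1, h3⟩

theorem pt_side (p : ℤ[X]) (k : ℕ) (y0 y1 : ℤ) (r : ℤ[X]) :
    pt p (k + 1) y0 y1 r = pt p k 0 y0 (C y1 + X * r) := by
  simp only [pt, map_zero]; ring

theorem pt_top (p : ℤ[X]) (k : ℕ) (t x0 x1 : ℤ) (r : ℤ[X]) :
    pt (p + X ^ (k + 1) * C t) k x0 x1 r = pt p k x0 (t + x1) r := by
  simp only [pt, map_add]; ring

theorem pt_side' (p : ℤ[X]) (k : ℕ) (s t y0 y1 : ℤ) (r : ℤ[X]) :
    pt (p + X ^ k * C s + X ^ (k + 1) * C t) (k + 1) y0 y1 r =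
      pt p k s (t + y0) (C y1 + X * r) := by
  simp only [pt, map_add]; ring

/-- trailing coefficient of `C y + X * r` -/
theorem tc_cons (y : ℤ) (r : ℤ[X]) :
    (C y + X * r).trailingCoeff = if y = 0 then r.trailingCoeff else y := by
  by_cases hy : y = 0
  · subst hy
    have hX : (X : ℤ[X]).trailingCoeff = 1 := by
      rw [trailingCoeff, natTrailingDegree_X, coeff_X_one]
    simp [trailingCoeff_mul, hX]
  · rw [if_neg hy]
    have hc : (C y + X * r).coeff 0 = y := by simp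
    have hd : (C y + X * r).natTrailingDegree = 0 := by
      apply Nat.eq_zero_of_le_zero
      apply natTrailingDegree_le_of_ne_zero
      rw [hc]; exact hy
    rw [trailingCoeff, hd, hc]

/-- states -/
inductive St
  | U (p : ℤ[X]) (k : ℕ) (s t w : Bool)
  | D (p : ℤ[X]) (k : ℕ) (t w : Bool)
  | E (p : ℤ[X]) (k : ℕ) (t w : Bool)

namespace St

noncomputable def P : St → ℤ[X]
  | U p _ _ _ _ => p
  | D p k t _ => p + X ^ (k + 1) * C (sg t)
  | E p _ _ _ => p

noncomputable def Q : St → ℤ[X]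
  | U p k s _ _ => p + X ^ k * C (sg s)
  | D p k t _ => p + X ^ k * C (sg t)
  | E p k t _ => p + X ^ k * C (-sg t) + X ^ (k + 1) * C (sg t)

noncomputable def M : St → ℤ[X]
  | U p k s t _ => if s = t then p + X ^ (k + 1) * C (sg t)
      else p + X ^ k * C (-sg t) + X ^ (k + 1) * C (sg t)
  | D p k t _ => p + X ^ k * C (sg t) + X ^ (k + 1) * C (sg t)
  | E p k t _ => p + X ^ (k + 1) * C (sg t)

noncomputable def L : St → St
  | U p k s t w => if s = t then U p (k + 1) t w w else E p k t w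
  | D p k t w => U (p + X ^ (k + 1) * C (sg t)) k t t (!w)
  | E p k t w => U p (k + 1) t w w

noncomputable def R : St → St
  | U p k s t w => if s = t then D p k t w
      else U (p + X ^ k * C (-sg t) + X ^ (k + 1) * C (sg t)) (k + 1) (!t) w w
  | D p k t w => U (p + X ^ k * C (sg t) + X ^ (k + 1) * C (sg t)) (k + 1) (!t) w w
  | E p k t w => U (p + X ^ (k + 1) * C (sg t)) k (!t) t (!w)

/-- condition on coordinates -/
def cond : St → ℤ → ℤ → ℤ[X] → Prop
  | U _ _ s t w, x0, x1, r => (x0 = 0 ∨ x0 = sg s) ∧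
      (0 < sg t * x1 ∨ (x1 = 0 ∧ 0 < sg w * r.trailingCoeff))
  | D _ _ t w, x0, x1, r => (x0 = sg t ∧ x1 = sg t ∧ r = 0) ∨
      ((x0 = 0 ∨ x0 = sg t) ∧ (1 < sg t * x1 ∨ (x1 = sg t ∧ sg w * r.trailingCoeff < 0))) ∨
      (x0 = sg t ∧ (x1 = 0 ∨ x1 = sg t) ∧ 0 < sg w * r.trailingCoeff)
  | E _ _ t w, x0, x1, r => (x0 = 0 ∧ x1 = sg t ∧ r = 0) ∨
      ((x0 = 0 ∨ x0 = -sg t) ∧ (1 < sg t * x1 ∨ (x1 = sg t ∧ sg w * r.trailingCoeff < 0))) ∨
      (x0 = 0 ∧ (x1 = 0 ∨ x1 = sg t) ∧ 0 < sg w * r.trailingCoeff)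

def base : St → ℤ[X]
  | U p _ _ _ _ => p
  | D p _ _ _ => p
  | E p _ _ _ => p

def lev : St → ℕ
  | U _ k _ _ _ => k
  | D _ k _ _ => k
  | E _ k _ _ => k

def Reg (s : St) : Set ℤ[X] :=
  {c | ∃ x0 x1 r, c = pt s.base s.lev x0 x1 r ∧ s.cond x0 x1 r}

end St

/-- allowed differences -/
def okp (a b : ℤ[X]) : Prop :=
  ∃ k : ℕ, b - a = X ^ k ∨ b - a = -X ^ k ∨ b - a = X ^ k * (1 - X) ∨ b - a = -(X ^ k * (1 - X))

theorem okp_symm {a b : ℤ[X]} (h : okp a b) : okp b a := by
  obtain ⟨k, h | h | h | h⟩ := h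
  · exact ⟨k, Or.inr (Or.inl (by rw [← h]; ring))⟩
  · exact ⟨k, Or.inl (by rw [← neg_sub, h, neg_neg])⟩
  · exact ⟨k, Or.inr (Or.inr (Or.inr (by rw [← h]; ring)))⟩
  · exact ⟨k, Or.inr (Or.inr (Or.inl (by rw [← neg_sub, h, neg_neg])))⟩

theorem St.hok (s : St) : okp s.P s.Q := by
  rcases s with ⟨p, k, s, t, w⟩ | ⟨p, k, t, w⟩ | ⟨p, k, t, w⟩
  · refine ⟨k, ?_⟩
    cases s
    · right; left; simp [St.P, St.Q]
    · left; simp [St.P, St.Q]
  · refine ⟨k, ?_⟩
    cases t
    · right; right; right; simp [St.P, St.Q]; ring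
    · right; right; left; simp [St.P, St.Q]; ring
  · refine ⟨k, ?_⟩
    cases t
    · right; right; left; simp [St.P, St.Q]; ring
    · right; right; right; simp [St.P, St.Q]; ring

/-- membership in the region of a side child -/
theorem mem_side {p : ℤ[X]} {k : ℕ} {t w : Bool} {c : ℤ[X]} :
    c ∈ (St.U p (k + 1) t w w).Reg ↔ ∃ y0 r, c = pt p k 0 y0 r ∧ (y0 = 0 ∨ y0 = sg t) ∧
      0 < sg w * r.trailingCoeff := by
  constructor
  · rintro ⟨x0, x1, r, hc, h0, h1⟩
    refine ⟨x0, C x1 + X * r, ?_, h0, ?_⟩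
    · rw [hc]; exact pt_side _ _ _ _ _
    · rw [tc_cons]
      rcases h1 with h1 | ⟨h1, h2⟩
      · have : x1 ≠ 0 := by rintro rfl; simp at h1
        rw [if_neg this]; exact h1
      · rw [if_pos h1]; exact h2
  · rintro ⟨y0, r, hc, h0, h1⟩
    have hr : r = C (r.coeff 0) + X * r.divX := by
      rw [add_comm]; exact (X_mul_divX_add r).symm
    refine ⟨y0, r.coeff 0, r.divX, ?_, h0, ?_⟩
    · rw [hc]
      change _ = pt p (k + 1) y0 _ _
      rw [pt_side, ← hr]
    · rw [hr, tc_cons] at h1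
      by_cases hz : r.coeff 0 = 0
      · rw [if_pos hz] at h1
        exact Or.inr ⟨hz, h1⟩
      · rw [if_neg hz] at h1
        exact Or.inl h1

theorem mem_side' {p : ℤ[X]} {k : ℕ} {a b : ℤ} {t w : Bool} {c : ℤ[X]} :
    c ∈ (St.U (p + X ^ k * C a + X ^ (k + 1) * C b) (k + 1) t w w).Reg ↔
      ∃ y0 r, c = pt p k a (b + y0) r ∧ (y0 = 0 ∨ y0 = sg t) ∧
      0 < sg w * r.trailingCoeff := by
  rw [mem_side]
  constructor
  · rintro ⟨y0, r, hc, h⟩
    refine ⟨y0, r, ?_, h⟩
    rw [hc]; simp only [pt, map_add, map_zero]; ring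
  · rintro ⟨y0, r, hc, h⟩
    refine ⟨y0, r, ?_, h⟩
    rw [hc]; simp only [pt, map_add, map_zero]; ring

theorem mem_top {p : ℤ[X]} {k : ℕ} {b : ℤ} {s t w : Bool} {c : ℤ[X]} :
    c ∈ (St.U (p + X ^ (k + 1) * C b) k s t w).Reg ↔
      ∃ x0 x1 r, c = pt p k x0 (b + x1) r ∧ (x0 = 0 ∨ x0 = sg s) ∧
      (0 < sg t * x1 ∨ (x1 = 0 ∧ 0 < sg w * r.trailingCoeff)) := by
  constructor
  · rintro ⟨x0, x1, r, hc, h⟩
    refine ⟨x0, x1, r, ?_, h⟩
    rw [hc]; exact pt_top _ _ _ _ _ _
  · rintro ⟨x0, x1, r, hc, h⟩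
    refine ⟨x0, x1, r, ?_, h⟩
    rw [hc]; exact (pt_top _ _ _ _ _ _).symm

theorem St.MReg (s : St) : s.M ∈ s.Reg := by
  rcases s with ⟨p, k, s, t, w⟩ | ⟨p, k, t, w⟩ | ⟨p, k, t, w⟩
  · by_cases h : s = t
    · subst h
      refine ⟨0, sg s, 0, ?_, ?_⟩
      · simp [St.M, pt, St.base, St.lev]; ring
      · refine ⟨Or.inl rfl, Or.inl ?_⟩
        cases s <;> simp
    · refine ⟨-sg t, sg t, 0, ?_, ?_⟩
      · simp [St.M, pt, h, St.base, St.lev]; ring
      · refine ⟨Or.inr ?_, Or.inl ?_⟩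
        · cases s <;> cases t <;> simp at h ⊢
        · cases t <;> simp
  · refine ⟨sg t, sg t, 0, ?_, Or.inl ⟨rfl, rfl, rfl⟩⟩
    simp [St.M, pt, St.base, St.lev]; ring
  · refine ⟨0, sg t, 0, ?_, Or.inl ⟨rfl, rfl, rfl⟩⟩
    simp [St.M, pt, St.base, St.lev]; ring

/-- coordinates of the apex -/
theorem St.M_eq (s : St) : ∃ x0 x1, s.M = pt s.base s.lev x0 x1 0 := by
  obtain ⟨x0, x1, r, h, -⟩ := s.MReg
  rcases s with ⟨p, k, s, t, w⟩ | ⟨p, k, t, w⟩ | ⟨p, k, t, w⟩
  · by_cases h : s = t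
    · subst h
      refine ⟨0, sg s, ?_⟩
      simp [St.M, pt, St.base, St.lev]; ring
    · refine ⟨-sg t, sg t, ?_⟩
      simp [St.M, pt, h, St.base, St.lev]; ring
  · refine ⟨sg t, sg t, ?_⟩
    simp [St.M, pt, St.base, St.lev]; ring
  · refine ⟨0, sg t, ?_⟩
    simp [St.M, pt, St.base, St.lev]; ring

/-- region of the left child, in parent coordinates -/
def St.condL : St → ℤ → ℤ → ℤ[X] → Prop
  | U _ _ s t w, x0, x1, r => (s = t ∧ x0 = 0 ∧ (x1 = 0 ∨ x1 = sg t) ∧
      0 < sg w * r.trailingCoeff) ∨ (s ≠ t ∧ (St.E 0 0 t w).cond x0 x1 r)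
  | D _ _ t w, x0, x1, r => (x0 = 0 ∨ x0 = sg t) ∧
      (0 < sg t * (x1 - sg t) ∨ (x1 = sg t ∧ 0 < sg (!w) * r.trailingCoeff))
  | E _ _ t w, x0, x1, r => x0 = 0 ∧ (x1 = 0 ∨ x1 = sg t) ∧ 0 < sg w * r.trailingCoeff

/-- region of the right child, in parent coordinates -/
def St.condR : St → ℤ → ℤ → ℤ[X] → Prop
  | U _ _ s t w, x0, x1, r => (s = t ∧ (St.D 0 0 t w).cond x0 x1 r) ∨
      (s ≠ t ∧ x0 = -sg t ∧ (x1 = 0 ∨ x1 = sg t) ∧ 0 < sg w * r.trailingCoeff)
  | D _ _ t w, x0, x1, r => x0 = sg t ∧ (x1 = 0 ∨ x1 = sg t) ∧ 0 < sg w * r.trailingCoeff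
  | E _ _ t w, x0, x1, r => (x0 = 0 ∨ x0 = -sg t) ∧
      (0 < sg t * (x1 - sg t) ∨ (x1 = sg t ∧ 0 < sg (!w) * r.trailingCoeff))

theorem sg_not (t : Bool) : sg (!t) = - sg t := by cases t <;> rfl

theorem St.mem_L {s : St} {c : ℤ[X]} (h : c ∈ s.L.Reg) :
    ∃ x0 x1 r, c = pt s.base s.lev x0 x1 r ∧ s.condL x0 x1 r := by
  rcases s with ⟨p, k, s, t, w⟩ | ⟨p, k, t, w⟩ | ⟨p, k, t, w⟩
  · by_cases hst : s = t
    · simp only [St.L, if_pos hst] at h
      rw [mem_side] at h
      obtain ⟨y0, r, hc, h0, h1⟩ := h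
      exact ⟨0, y0, r, hc, Or.inl ⟨hst, rfl, h0, h1⟩⟩
    · simp only [St.L, if_neg hst] at h
      obtain ⟨x0, x1, r, hc, h1⟩ := h
      exact ⟨x0, x1, r, hc, Or.inr ⟨hst, h1⟩⟩
  · simp only [St.L] at h
    rw [mem_top] at h
    obtain ⟨x0, x1, r, hc, h0, h1⟩ := h
    refine ⟨x0, _, r, hc, h0, ?_⟩
    rcases h1 with h1 | ⟨h1, h2⟩
    · left; simpa using h1
    · right; subst h1; simpa using h2
  · simp only [St.L] at h
    rw [mem_side] at h
    obtain ⟨y0, r, hc, h0, h1⟩ := h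
    exact ⟨0, y0, r, hc, rfl, h0, h1⟩

theorem St.mem_R {s : St} {c : ℤ[X]} (h : c ∈ s.R.Reg) :
    ∃ x0 x1 r, c = pt s.base s.lev x0 x1 r ∧ s.condR x0 x1 r := by
  rcases s with ⟨p, k, s, t, w⟩ | ⟨p, k, t, w⟩ | ⟨p, k, t, w⟩
  · by_cases hst : s = t
    · simp only [St.R, if_pos hst] at h
      obtain ⟨x0, x1, r, hc, h1⟩ := h
      exact ⟨x0, x1, r, hc, Or.inl ⟨hst, h1⟩⟩
    · simp only [St.R, if_neg hst] at h
      rw [mem_side'] at h
      obtain ⟨y0, r, hc, h0, h1⟩ := h
      refine ⟨_, _, r, hc, Or.inr ⟨hst, rfl, ?_, h1⟩⟩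
      rw [sg_not] at h0
      rcases h0 with rfl | rfl
      · right; ring
      · left; ring
  · simp only [St.R] at h
    rw [mem_side'] at h
    obtain ⟨y0, r, hc, h0, h1⟩ := h
    refine ⟨_, _, r, hc, rfl, ?_, h1⟩
    rw [sg_not] at h0
    rcases h0 with rfl | rfl
    · right; ring
    · left; ring
  · simp only [St.R] at h
    rw [mem_top] at h
    obtain ⟨x0, x1, r, hc, h0, h1⟩ := h
    rw [sg_not] at h0
    refine ⟨x0, _, r, hc, h0, ?_⟩
    rcases h1 with h1 | ⟨h1, h2⟩
    · left; simpa using h1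
    · right; subst h1; simpa using h2

theorem St.condL_cond {s : St} {x0 x1 : ℤ} {r : ℤ[X]} (h : s.condL x0 x1 r) :
    s.cond x0 x1 r := by
  rcases s with ⟨p, k, s, t, w⟩ | ⟨p, k, t, w⟩ | ⟨p, k, t, w⟩
  · simp only [St.condL, St.cond] at h ⊢
    rcases h with ⟨rfl, h⟩ | ⟨hst, h | h | h⟩
    · generalize r.trailingCoeff = T at *
      cases s <;> cases w <;> simp only [sg_true, sg_false] at * <;> omega
    · have hs : s = !t := by cases s <;> cases t <;> simp at hst ⊢
      subst hs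
      generalize r.trailingCoeff = T at *
      cases t <;> cases w <;> simp only [sg_true, sg_false, Bool.not_true, Bool.not_false] at * <;> omega
    · have hs : s = !t := by cases s <;> cases t <;> simp at hst ⊢
      subst hs
      generalize r.trailingCoeff = T at *
      cases t <;> cases w <;> simp only [sg_true, sg_false, Bool.not_true, Bool.not_false] at * <;> omega
    · have hs : s = !t := by cases s <;> cases t <;> simp at hst ⊢
      subst hs
      generalize r.trailingCoeff = T at *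
      cases t <;> cases w <;> simp only [sg_true, sg_false, Bool.not_true, Bool.not_false] at * <;> omega
  · simp only [St.condL, St.cond] at h ⊢
    right; left
    generalize r.trailingCoeff = T at *
    cases t <;> cases w <;> simp only [sg_true, sg_false, Bool.not_true, Bool.not_false] at * <;> omega
  · simp only [St.condL, St.cond] at h ⊢
    right; right
    generalize r.trailingCoeff = T at *
    cases t <;> cases w <;> simp only [sg_true, sg_false, Bool.not_true, Bool.not_false] at * <;> omega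

theorem St.condR_cond {s : St} {x0 x1 : ℤ} {r : ℤ[X]} (h : s.condR x0 x1 r) :
    s.cond x0 x1 r := by
  rcases s with ⟨p, k, s, t, w⟩ | ⟨p, k, t, w⟩ | ⟨p, k, t, w⟩
  · simp only [St.condR, St.cond] at h ⊢
    rcases h with ⟨rfl, h | h | h⟩ | ⟨hst, h⟩
    · generalize r.trailingCoeff = T at *
      cases s <;> cases w <;> simp only [sg_true, sg_false] at * <;> omega
    · generalize r.trailingCoeff = T at *
      cases s <;> cases w <;> simp only [sg_true, sg_false] at * <;> omega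
    · generalize r.trailingCoeff = T at *
      cases s <;> cases w <;> simp only [sg_true, sg_false] at * <;> omega
    · have hs : s = !t := by cases s <;> cases t <;> simp at hst ⊢
      subst hs
      generalize r.trailingCoeff = T at *
      cases t <;> cases w <;> simp only [sg_true, sg_false, Bool.not_true, Bool.not_false] at * <;> omega
  · simp only [St.condR, St.cond] at h ⊢
    right; right
    generalize r.trailingCoeff = T at *
    cases t <;> cases w <;> simp only [sg_true, sg_false, Bool.not_true, Bool.not_false] at * <;> omega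
  · simp only [St.condR, St.cond] at h ⊢
    right; left
    generalize r.trailingCoeff = T at *
    cases t <;> cases w <;> simp only [sg_true, sg_false, Bool.not_true, Bool.not_false] at * <;> omega

theorem St.apex_L {s : St} {x0 x1 : ℤ} (h : s.condL x0 x1 0)
    (h' : s.M = pt s.base s.lev x0 x1 0) : False := by
  have h0 : (0 : ℤ[X]).trailingCoeff = 0 := by simp
  rcases s with ⟨p, k, s, t, w⟩ | ⟨p, k, t, w⟩ | ⟨p, k, t, w⟩
  · by_cases hst : s = t
    · have e : St.M (.U p k s t w) = pt p k 0 (sg t) 0 := by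
        simp [St.M, pt, hst]; ring
      rw [e] at h'
      obtain ⟨e0, e1, -⟩ := pt_inj h'
      simp only [St.condL, St.cond, h0] at h
      rcases h with h | h
      · omega
      · exact h.1 hst
    · have e : St.M (.U p k s t w) = pt p k (-sg t) (sg t) 0 := by
        simp [St.M, pt, hst]; ring
      rw [e] at h'
      obtain ⟨e0, e1, -⟩ := pt_inj h'
      simp only [St.condL, St.cond, h0] at h
      subst e0; subst e1
      rcases h with h | ⟨-, h | h | h⟩
      · exact hst h.1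
      · cases t <;> simp at h
      · cases t <;> simp at h
      · cases t <;> simp at h
  · have e : St.M (.D p k t w) = pt p k (sg t) (sg t) 0 := by
      simp [St.M, pt]; ring
    rw [e] at h'
    obtain ⟨e0, e1, -⟩ := pt_inj h'
    simp only [St.condL, h0] at h
    subst e0; subst e1
    cases t <;> simp at h
  · have e : St.M (.E p k t w) = pt p k 0 (sg t) 0 := by
      simp [St.M, pt]; ring
    rw [e] at h'
    simp only [St.condL, h0] at h
    omega

theorem St.apex_R {s : St} {x0 x1 : ℤ} (h : s.condR x0 x1 0)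
    (h' : s.M = pt s.base s.lev x0 x1 0) : False := by
  have h0 : (0 : ℤ[X]).trailingCoeff = 0 := by simp
  rcases s with ⟨p, k, s, t, w⟩ | ⟨p, k, t, w⟩ | ⟨p, k, t, w⟩
  · by_cases hst : s = t
    · have e : St.M (.U p k s t w) = pt p k 0 (sg t) 0 := by
        simp [St.M, pt, hst]; ring
      rw [e] at h'
      obtain ⟨e0, e1, -⟩ := pt_inj h'
      simp only [St.condR, St.cond, h0] at h
      subst e0; subst e1
      rcases h with ⟨-, h | h | h⟩ | h
      · cases t <;> simp at h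
      · cases t <;> simp at h
      · cases t <;> simp at h
      · exact h.1 hst
    · have e : St.M (.U p k s t w) = pt p k (-sg t) (sg t) 0 := by
        simp [St.M, pt, hst]; ring
      rw [e] at h'
      simp only [St.condR, St.cond, h0] at h
      rcases h with h | h
      · exact hst h.1
      · omega
  · have e : St.M (.D p k t w) = pt p k (sg t) (sg t) 0 := by
      simp [St.M, pt]; ring
    rw [e] at h'
    simp only [St.condR, h0] at h
    omega
  · have e : St.M (.E p k t w) = pt p k 0 (sg t) 0 := by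
      simp [St.M, pt]; ring
    rw [e] at h'
    obtain ⟨e0, e1, -⟩ := pt_inj h'
    simp only [St.condR, h0] at h
    subst e0; subst e1
    cases t <;> simp at h

theorem St.cond_disj {s : St} {x0 x1 : ℤ} {r : ℤ[X]} (h : s.condL x0 x1 r)
    (h' : s.condR x0 x1 r) : False := by
  rcases s with ⟨p, k, s, t, w⟩ | ⟨p, k, t, w⟩ | ⟨p, k, t, w⟩
  · simp only [St.condL, St.condR, St.cond] at h h'
    rcases h with ⟨rfl, h⟩ | ⟨hst, h | h | h⟩ <;> rcases h' with ⟨e, h' | h' | h'⟩ | ⟨hst', h'⟩ <;>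
    first
    | exact hst' rfl
    | exact hst e
    | (have hr : r.trailingCoeff = 0 := by rw [h'.2.2]; simp
       rw [hr] at h; simp at h)
    | (have hr : r.trailingCoeff = 0 := by rw [h.2.2]; simp
       rw [hr] at h'; simp at h')
    | (generalize r.trailingCoeff = T at *
       revert h h'
       cases t <;> cases w <;> simp only [sg_true, sg_false, Bool.not_true, Bool.not_false] <;> intros <;> omega)
    | (generalize r.trailingCoeff = T at *
       revert h h'
       cases s <;> cases w <;> simp only [sg_true, sg_false, Bool.not_true, Bool.not_false] <;> intros <;> omega)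
  · simp only [St.condL, St.condR] at h h'
    generalize r.trailingCoeff = T at *
    cases t <;> cases w <;> simp only [sg_true, sg_false, Bool.not_true, Bool.not_false] at * <;> omega
  · simp only [St.condL, St.condR] at h h'
    generalize r.trailingCoeff = T at *
    cases t <;> cases w <;> simp only [sg_true, sg_false, Bool.not_true, Bool.not_false] at * <;> omega

/-- The concrete machine. -/
noncomputable def machine : Machine ℤ[X] okp where
  σ := St
  P := St.P
  Q := St.Q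
  M := St.M
  L := St.L
  R := St.R
  Reg := St.Reg
  PL := by
    intro s
    rcases s with ⟨p, k, s, t, w⟩ | ⟨p, k, t, w⟩ | ⟨p, k, t, w⟩
    · by_cases h : s = t <;> simp [St.L, St.P, h]
    · simp [St.L, St.P]
    · simp [St.L, St.P]
  QL := by
    intro s
    rcases s with ⟨p, k, s, t, w⟩ | ⟨p, k, t, w⟩ | ⟨p, k, t, w⟩
    · by_cases h : s = t <;> simp [St.L, St.Q, St.M, h]
    · simp [St.L, St.Q, St.M]; ring
    · simp [St.L, St.Q, St.M]
  PR := by
    intro s
    rcases s with ⟨p, k, s, t, w⟩ | ⟨p, k, t, w⟩ | ⟨p, k, t, w⟩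
    · by_cases h : s = t <;> simp [St.R, St.P, St.M, h]
    · simp [St.R, St.P, St.M]
    · simp [St.R, St.P, St.M]
  QR := by
    intro s
    rcases s with ⟨p, k, s, t, w⟩ | ⟨p, k, t, w⟩ | ⟨p, k, t, w⟩
    · by_cases h : s = t
      · simp [St.R, St.Q, h]
      · have hs : s = !t := by cases s <;> cases t <;> simp at h ⊢
        subst hs
        simp [St.R, St.Q, sg_not]
    · simp [St.R, St.Q, sg_not]
    · simp [St.R, St.Q, sg_not]; ring
  hok := St.hok
  MReg := St.MReg
  Lsub := by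
    intro s c hc
    obtain ⟨x0, x1, r, h, h'⟩ := St.mem_L hc
    exact ⟨x0, x1, r, h, St.condL_cond h'⟩
  Rsub := by
    intro s c hc
    obtain ⟨x0, x1, r, h, h'⟩ := St.mem_R hc
    exact ⟨x0, x1, r, h, St.condR_cond h'⟩
  ML := by
    intro s hc
    obtain ⟨x0, x1, r, h, h'⟩ := St.mem_L hc
    obtain ⟨y0, y1, hy⟩ := s.M_eq
    have hr : r = 0 := by
      rw [hy] at h
      exact (pt_inj h).2.2.symm
    subst hr
    exact St.apex_L h' h
  MR := by
    intro s hc
    obtain ⟨x0, x1, r, h, h'⟩ := St.mem_R hc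
    obtain ⟨y0, y1, hy⟩ := s.M_eq
    have hr : r = 0 := by
      rw [hy] at h
      exact (pt_inj h).2.2.symm
    subst hr
    exact St.apex_R h' h
  disj := by
    intro s c hc hc'
    obtain ⟨x0, x1, r, h, h'⟩ := St.mem_L hc
    obtain ⟨y0, y1, r', e, e'⟩ := St.mem_R hc'
    rw [h] at e
    obtain ⟨rfl, rfl, rfl⟩ := pt_inj e
    exact St.cond_disj h' e'

end Pool.Agent.R578.OP
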