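import Mathlib
import Pool.Agent.R578.OPPoly

namespace Pool.Agent.R578.OP

open Polynomial

/-- drawing of a non-crossing graph in `ℤ[X]` -/
theorem exists_poly {V : Type*} [Finite V] (G : SimpleGraph V) (e : V → ℕ)
    (he : Function.Injective e)
    (hc : ∀ a b c d, e a < e b → e b < e c → e c < e d → G.Adj a c → ¬ G.Adj b d) :
    ∃ f : V → ℤ[X], Function.Injective f ∧ ∀ u v, G.Adj u v → okp (f u) (f v) := by
  classical
  obtain ⟨N, hN⟩ : ∃ N, ∀ v, e v < N := by
    have : (Set.range e).Finite := Set.finite_range e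
    obtain ⟨N, hN⟩ := this.bddAbove
    exact ⟨N + 1, fun v => Nat.lt_succ_of_le (hN ⟨v, rfl⟩)⟩
  let E : ℕ → ℕ → Prop := fun x y => ∃ u v, e u + 1 = x ∧ e v + 1 = y ∧ G.Adj u v
  have hE : ∀ x y z w, x < y → y < z → z < w → E x z → E y w → False := by
    rintro x y z w h1 h2 h3 ⟨a, c, rfl, rfl, hac⟩ ⟨b, d, rfl, rfl, hbd⟩
    exact hc a b c d (by omega) (by omega) (by omega) hac hbd
  obtain ⟨f, -, -, -, finj, fok⟩ := machine.draw E hE (N + 1) 0 (N + 1) (by omega) (by omega)
    (St.U 0 0 true true true)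
  refine ⟨fun v => f (e v + 1), ?_, ?_⟩
  · intro u v huv
    have := finj (e u + 1) (e v + 1) (by omega) (by have := hN u; omega) (by omega)
      (by have := hN v; omega) huv
    exact he (by omega)
  · intro u v huv
    rcases lt_trichotomy (e u) (e v) with h | h | h
    · exact fok _ _ (by omega) (by omega) (by have := hN v; omega) (Or.inl ⟨u, v, rfl, rfl, huv⟩)
    · exact absurd (he h) huv.ne
    · exact okp_symm (fok _ _ (by omega) (by omega) (by have := hN u; omega)
        (Or.inl ⟨v, u, rfl, rfl, huv.symm⟩))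

/-- A transcendental number on the unit circle with prescribed distance to `1`. -/
theorem exists_z {l : ℝ} (h0 : 0 < l) (h2 : l < 2) (hl : Transcendental ℚ l) :
    ∃ z : ℂ, ‖z‖ = 1 ∧ ‖1 - z‖ = l ∧ Transcendental ℤ z := by
  let c : ℝ := 1 - l ^ 2 / 2
  let s : ℝ := Real.sqrt (1 - c ^ 2)
  have hc : 0 ≤ 1 - c ^ 2 := by
    have h1 : c ≤ 1 := by simp only [c]; nlinarith
    have h2 : -1 ≤ c := by simp only [c]; nlinarith
    nlinarith
  have hs : s ^ 2 = 1 - c ^ 2 := Real.sq_sqrt hc
  let z : ℂ := ⟨c, s⟩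
  have hz : ‖z‖ = 1 := by
    rw [← sq_eq_sq₀ (norm_nonneg _) zero_le_one, ← Complex.normSq_eq_norm_sq, Complex.normSq_mk]
    nlinarith
  have hz1 : ‖1 - z‖ = l := by
    rw [← sq_eq_sq₀ (norm_nonneg _) h0.le, ← Complex.normSq_eq_norm_sq]
    have : (1 : ℂ) - z = ⟨1 - c, -s⟩ := by
      apply Complex.ext <;> simp [z]
    rw [this, Complex.normSq_mk]
    have : c = 1 - l ^ 2 / 2 := rfl
    nlinarith
  refine ⟨z, hz, hz1, ?_⟩
  intro halg
  have h1 : IsAlgebraic ℚ z := halg.extendScalars (Int.cast_injective)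
  have h2 : IsAlgebraic ℚ (z + z⁻¹) := h1.add h1.inv
  have h3 : z + z⁻¹ = ((2 - l ^ 2 : ℝ) : ℂ) := by
    have : z⁻¹ = (starRingEnd ℂ) z := by
      rw [Complex.inv_def, Complex.normSq_eq_norm_sq, hz]; simp
    rw [this, Complex.add_conj]
    simp only [z, c]
    push_cast; ring
  rw [h3] at h2
  have h4 : IsAlgebraic ℚ (2 - l ^ 2 : ℝ) := by
    have := (isAlgebraic_algebraMap_iff (R := ℚ) (A := ℂ) (algebraMap ℝ ℂ).injective).mp h2
    exact this
  have h5 : IsAlgebraic ℚ (l ^ 2) := by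
    have h6 : IsAlgebraic ℚ (2 : ℝ) := by
      have := isAlgebraic_algebraMap (R := ℚ) (A := ℝ) (2 : ℚ)
      simpa using this
    have := h6.sub h4
    simpa using this
  exact hl (IsAlgebraic.of_pow (by norm_num : 0 < 2) h5)

theorem okp_norm {z : ℂ} (hz : ‖z‖ = 1) {f g : ℤ[X]} (h : okp f g) :
    dist (aeval z f) (aeval z g) = 1 ∨ dist (aeval z f) (aeval z g) = ‖1 - z‖ := by
  rw [dist_comm, dist_eq_norm, ← map_sub]
  obtain ⟨k, h | h | h | h⟩ := h
  · left; rw [h]; simp [hz]
  · left; rw [h]; simp [hz]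
  · right; rw [h]; simp [hz]
  · right; rw [h, map_neg, norm_neg]; simp [hz]

/-- Main drawing theorem: any two positive lengths with transcendental ratio suffice. -/
theorem two_lengths {V : Type*} [Finite V] (G : SimpleGraph V) (e : V → ℕ)
    (he : Function.Injective e)
    (hc : ∀ a b c d, e a < e b → e b < e c → e c < e d → G.Adj a c → ¬ G.Adj b d)
    {a b : ℝ} (ha : 0 < a) (hb : 0 < b) (hab : Transcendental ℚ (b / a)) :
    ∃ p : V → EuclideanSpace ℝ (Fin 2), Function.Injective p ∧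
      ∀ u v, G.Adj u v → dist (p u) (p v) = a ∨ dist (p u) (p v) = b := by
  -- it suffices to treat `b < 2 a`
  wlog h2 : b < 2 * a with H
  · have hab' : Transcendental ℚ (a / b) := by
      intro h
      apply hab
      have := h.inv
      rwa [inv_div] at this
    obtain ⟨p, hp, hp'⟩ := H G e he hc hb ha hab' (by linarith)
    exact ⟨p, hp, fun u v h => (hp' u v h).symm⟩
  obtain ⟨f, finj, fok⟩ := exists_poly G e he hc
  obtain ⟨z, hz, hz1, ht⟩ := exists_z (l := b / a) (by positivity) (by rw [div_lt_iff₀ ha]; exact h2) hab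
  have hinj : Function.Injective (aeval z : ℤ[X] → ℂ) := transcendental_iff_injective.mp ht
  let φ := Complex.orthonormalBasisOneI.repr
  refine ⟨fun v => φ ((a : ℂ) * aeval z (f v)), ?_, ?_⟩
  · intro u v huv
    have h1 := φ.injective huv
    have h2 := mul_left_cancel₀ (by exact_mod_cast ha.ne') h1
    exact finj (hinj h2)
  · intro u v huv
    have hd : dist (φ ((a : ℂ) * aeval z (f u))) (φ ((a : ℂ) * aeval z (f v))) =
        a * dist (aeval z (f u)) (aeval z (f v)) := by
      rw [φ.dist_map, dist_eq_norm, dist_eq_norm, ← mul_sub, norm_mul]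
      simp [abs_of_pos ha]
    rw [hd]
    rcases okp_norm hz (fok u v huv) with h | h
    · left; rw [h, mul_one]
    · right; rw [h, hz1]; field_simp

end Pool.Agent.R578.OP
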