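import Mathlib
import Pool.Agent.R578.ASF

/-!
# Integer sequences with ten distinct gaps and no (near) three-term progressions
-/

namespace Pool.Agent.R578.Gap

open Finset Pool.Agent.R578.ASF

/-- number of occurrences of the letter `y` among the first `n` letters -/
def cnt (y n : ℕ) : ℕ := ∑ m ∈ range n, if W m = y then 1 else 0

theorem cnt_le (y n : ℕ) : cnt y n ≤ n := by
  unfold cnt
  calc _ ≤ ∑ m ∈ range n, 1 := sum_le_sum (fun m _ => by split <;> omega)
    _ = n := by simp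

theorem cnt_ws (y n : ℕ) : (cnt y n : ℤ) = ws (del y) n := by
  unfold cnt ws del
  push_cast
  rfl

/-- `∑ B^(W m)` -/
def eN (B n : ℕ) : ℕ := ∑ m ∈ range n, B ^ (W m)

theorem eN_succ (B n : ℕ) : eN B (n + 1) = eN B n + B ^ (W n) := by
  rw [eN, sum_range_succ]; rfl

theorem eN_eq (B n : ℕ) : eN B n = cnt 0 n + B * (cnt 1 n + B * (cnt 2 n + B * (cnt 3 n +
    B * cnt 4 n))) := by
  induction n with
  | zero => simp [eN, cnt]
  | succ n ih =>
    rw [eN_succ, ih]
    have hc : ∀ y, cnt y (n + 1) = cnt y n + if W n = y then 1 else 0 := by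
      intro y; rw [cnt, sum_range_succ]; rfl
    simp only [hc]
    have h := W_lt n
    generalize W n = w at *
    interval_cases w <;> simp <;> ring

theorem eN_le (B n : ℕ) (hB : 0 < B) : eN B n ≤ n * B ^ 4 := by
  unfold eN
  calc _ ≤ ∑ m ∈ range n, B ^ 4 := sum_le_sum (fun m _ => Nat.pow_le_pow_right hB (by
        have := W_lt m; omega))
    _ = n * B ^ 4 := by simp

theorem split {B x y x' y' : ℕ} (hx : x < B) (hx' : x' < B) (h : x + B * y = x' + B * y') :
    x = x' ∧ y = y' := by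
  have h1 : x = x' := by
    have := congrArg (· % B) h
    simpa [Nat.add_mul_mod_self_left, Nat.mod_eq_of_lt hx, Nat.mod_eq_of_lt hx'] using this
  subst h1
  refine ⟨rfl, ?_⟩
  have h2 : B * y = B * y' := by omega
  exact Nat.eq_of_mul_eq_mul_left (by omega) h2

theorem AP_of_eN {B a k b : ℕ} (hab : a + b < B) (hk : 2 * k < B)
    (h : eN B a + eN B b = 2 * eN B k) : AP a k b := by
  rw [eN_eq, eN_eq, eN_eq] at h
  have h0 : (cnt 0 a + cnt 0 b) + B * ((cnt 1 a + cnt 1 b) + B * ((cnt 2 a + cnt 2 b) + B *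
      ((cnt 3 a + cnt 3 b) + B * (cnt 4 a + cnt 4 b)))) =
      (2 * cnt 0 k) + B * ((2 * cnt 1 k) + B * ((2 * cnt 2 k) + B *
      ((2 * cnt 3 k) + B * (2 * cnt 4 k)))) := by
    linarith
  have hl : ∀ y, cnt y a + cnt y b < B := fun y =>
    lt_of_le_of_lt (add_le_add (cnt_le y a) (cnt_le y b)) hab
  have hr : ∀ y, 2 * cnt y k < B := fun y =>
    lt_of_le_of_lt (Nat.mul_le_mul_left 2 (cnt_le y k)) hk
  obtain ⟨e0, h1⟩ := split (hl 0) (hr 0) h0
  obtain ⟨e1, h2⟩ := split (hl 1) (hr 1) h1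
  obtain ⟨e2, h3⟩ := split (hl 2) (hr 2) h2
  obtain ⟨e3, e4⟩ := split (hl 3) (hr 3) h3
  have h4 : 0 < B := by omega
  apply AP_of_del
  intro y hy
  rw [← cnt_ws, ← cnt_ws, ← cnt_ws]
  interval_cases y
  · exact_mod_cast e0
  · exact_mod_cast e1
  · exact_mod_cast e2
  · exact_mod_cast e3
  · exact_mod_cast e4

/-- The exponent sequence. -/
def E (B n : ℕ) : ℕ := eN B ((n + 1) / 2) + B ^ 5 * eN B (n / 2)

theorem E_even (B m : ℕ) : E B (2 * m + 1) = E B (2 * m) + B ^ (W m) := by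
  have h1 : (2 * m + 1 + 1) / 2 = m + 1 := by omega
  have h2 : (2 * m + 1) / 2 = m := by omega
  have h3 : (2 * m) / 2 = m := by omega
  rw [E, E, h1, h2, h3, eN_succ]; ring

theorem E_odd (B m : ℕ) : E B (2 * m + 1 + 1) = E B (2 * m + 1) + B ^ (5 + W m) := by
  have h1 : (2 * m + 1 + 1 + 1) / 2 = m + 1 := by omega
  have h2 : (2 * m + 1 + 1) / 2 = m + 1 := by omega
  have h3 : (2 * m + 1) / 2 = m := by omega
  rw [E, E, h1, h2, h3, eN_succ, pow_add]; ring

theorem E_gap (B n : ℕ) : ∃ g, g < 10 ∧ E B (n + 1) = E B n + B ^ g := by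
  rcases Nat.even_or_odd' n with ⟨m, rfl | rfl⟩
  · exact ⟨W m, by have := W_lt m; omega, E_even B m⟩
  · exact ⟨5 + W m, by have := W_lt m; omega, E_odd B m⟩

theorem E_strictMono (B : ℕ) (hB : 0 < B) : StrictMono (E B) := by
  apply strictMono_nat_of_lt_succ
  intro n
  obtain ⟨g, -, h⟩ := E_gap B n
  rw [h]
  have := pow_pos hB g
  omega

theorem E_sep {B a b k l : ℕ} (hab : a + b + 4 < B) (hkl : k + l + 4 < B)
    (h : E B a + E B b = E B k + E B l) :
    eN B ((a + 1) / 2) + eN B ((b + 1) / 2) = eN B ((k + 1) / 2) + eN B ((l + 1) / 2) ∧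
    eN B (a / 2) + eN B (b / 2) = eN B (k / 2) + eN B (l / 2) := by
  have hB : 0 < B := by omega
  have hbd : ∀ x y, x + y + 4 < B → eN B ((x + 1) / 2) + eN B ((y + 1) / 2) < B ^ 5 := by
    intro x y hxy
    calc _ ≤ (x + 1) / 2 * B ^ 4 + (y + 1) / 2 * B ^ 4 :=
          add_le_add (eN_le B _ hB) (eN_le B _ hB)
      _ = ((x + 1) / 2 + (y + 1) / 2) * B ^ 4 := by ring
      _ < B * B ^ 4 := Nat.mul_lt_mul_of_pos_right (by omega) (by positivity)
      _ = B ^ 5 := by ring
  apply split (hbd a b hab) (hbd k l hkl)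
  unfold E at h
  linarith

/-- The main property of the exponent sequence. -/
theorem exists_seq (K : ℕ) : ∃ (B : ℕ) (e : ℕ → ℕ), StrictMono e ∧
    (∀ n, ∃ g, g < 10 ∧ e (n + 1) = e n + B ^ g) ∧
    (∀ a k b, a < k → k < b → b ≤ K → e a + e b ≠ 2 * e k) ∧
    (∀ a k b, a < k → k + 1 < b → b ≤ K → e a + e b ≠ e k + e (k + 1)) := by
  refine ⟨2 * K + 10, E (2 * K + 10), E_strictMono _ (by omega), E_gap _, ?_, ?_⟩
  · intro a k b hak hkb hbK h
    obtain ⟨h1, h2⟩ := E_sep (by omega) (by omega) (h.trans (two_mul _))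
    rw [← two_mul] at h1 h2
    have A1 := AP_of_eN (by omega) (by omega) h1
    have A2 := AP_of_eN (by omega) (by omega) h2
    have l1 := A1.len
    have l2 := A2.len
    by_cases c1 : (a + 1) / 2 < (k + 1) / 2
    · exact noAP _ _ _ c1 (by omega) A1
    · by_cases c2 : a / 2 < k / 2
      · exact noAP _ _ _ c2 (by omega) A2
      · omega
  · intro a k b hak hkb hbK h
    obtain ⟨h1, h2⟩ := E_sep (by omega) (by omega) h
    rcases Nat.even_or_odd' k with ⟨m, rfl | rfl⟩
    · have e1 : 2 * m / 2 = m := by omega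
      have e2 : (2 * m + 1) / 2 = m := by omega
      rw [e1, e2, ← two_mul] at h2
      exact noAP _ _ _ (by omega) (by omega) (AP_of_eN (by omega) (by omega) h2)
    · have e1 : (2 * m + 1 + 1) / 2 = m + 1 := by omega
      have e2 : (2 * m + 1 + 1 + 1) / 2 = m + 1 := by omega
      rw [e1, e2, ← two_mul] at h1
      exact noAP _ _ _ (by omega) (by omega) (AP_of_eN (by omega) (by omega) h1)

end Pool.Agent.R578.Gap
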