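import Mathlib
import Pool.Agent.R578.OPGap
import Pool.Agent.R578.OPFin

/-!
# Non-degenerate drawings of outerplanar graphs with at most eleven edge lengths
-/

namespace Pool.Agent.R578.OP

open Polynomial Finset

/-- comparing coefficients at a transcendental number -/
theorem tr_coeff {z : ℂ} (hz : Transcendental ℤ z) {S : Finset ℕ} {a b : ℕ → ℤ} {n m : ℕ → ℕ}
    (hn : ∀ i ∈ S, ∀ j ∈ S, n i = n j → i = j)
    (h : ∑ j ∈ S, (a j : ℂ) * z ^ (n j) = ∑ j ∈ S, (b j : ℂ) * z ^ (m j)) {i : ℕ} (hi : i ∈ S) :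
    a i = ∑ j ∈ S, if m j = n i then b j else 0 := by
  have hinj : Function.Injective (aeval z : ℤ[X] → ℂ) := transcendental_iff_injective.mp hz
  have h1 : aeval z (∑ j ∈ S, C (a j) * X ^ (n j)) = aeval z (∑ j ∈ S, C (b j) * X ^ (m j)) := by
    simp only [map_sum, map_mul, map_pow, aeval_X, aeval_C]
    simpa using h
  have h2 := congrArg (fun p => coeff p (n i)) (hinj h1)
  simp only [finsetSum_coeff, coeff_C_mul, coeff_X_pow] at h2
  have h3 : ∑ j ∈ S, a j * (if n i = n j then 1 else 0) = a i := by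
    rw [sum_eq_single i]
    · simp
    · intro j hj hji
      rw [if_neg, mul_zero]
      intro h; exact hji (hn i hi j hj h).symm
    · intro h; exact absurd hi h
  rw [h3] at h2
  rw [h2]
  apply sum_congr rfl
  intro j _
  by_cases hc : m j = n i
  · rw [if_pos hc, if_pos hc.symm, mul_one]
  · rw [if_neg hc, if_neg (fun h => hc h.symm), mul_zero]

section

variable {z : ℂ} {K : ℕ} {e : ℕ → ℕ}

/-- evaluation `X^k ↦ z^(e k)` -/
noncomputable def ev (z : ℂ) (K : ℕ) (e : ℕ → ℕ) (c : ℤ[X]) : ℂ :=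
  ∑ j ∈ range (K + 1), (c.coeff j : ℂ) * z ^ (e j)

theorem ev_sub (c d : ℤ[X]) : ev z K e (c - d) = ev z K e c - ev z K e d := by
  simp only [ev, coeff_sub, Int.cast_sub, sub_mul, sum_sub_distrib]

theorem ev_neg (c : ℤ[X]) : ev z K e (-c) = - ev z K e c := by
  simp only [ev, coeff_neg, Int.cast_neg, neg_mul, sum_neg_distrib]

theorem ev_X {k : ℕ} (hk : k ≤ K) : ev z K e (X ^ k) = z ^ (e k) := by
  rw [ev, sum_eq_single k]
  · simp
  · intro j _ hj
    rw [coeff_X_pow, if_neg hj]; simp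
  · intro h; exact absurd (mem_range.mpr (by omega)) h

theorem ev_inj (hz : Transcendental ℤ z) (he : StrictMono e) {c : ℤ[X]} (hc : c.natDegree ≤ K)
    (h : ev z K e c = 0) : c = 0 := by
  ext i
  by_cases hi : i ∈ range (K + 1)
  · have h' : ∑ j ∈ range (K + 1), (c.coeff j : ℂ) * z ^ (e j) =
        ∑ j ∈ range (K + 1), ((0 : ℕ → ℤ) j : ℂ) * z ^ (e j) := by
      rw [ev] at h; rw [h]; simp
    rw [tr_coeff hz (fun i _ j _ hij => he.injective hij) h' hi]
    simp
  · rw [coeff_eq_zero_of_natDegree_lt]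
    · simp
    · rw [mem_range] at hi; omega

theorem conj_pow (h1 : ‖z‖ = 1) (n : ℕ) : (starRingEnd ℂ) (z ^ n) = (z ^ n)⁻¹ := by
  rw [Complex.inv_def, Complex.normSq_eq_norm_sq, norm_pow, h1]
  simp

/-- the reflected identity -/
theorem reflect (h1 : ‖z‖ = 1) {c : ℤ[X]} {t : ℝ} {s : ℕ} {w : ℂ} (h : ev z K e c = t * w)
    (M : ℕ) (hM : ∀ j ≤ K, e j ≤ M + s) :
    ∑ j ∈ range (K + 1), (c.coeff j : ℂ) * z ^ (M + s - e j) =
      z ^ (M + s) * (t * (starRingEnd ℂ) w) := by
  have hz0 : z ≠ 0 := by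
    intro h0; rw [h0] at h1; simp at h1
  have h2 := congrArg (starRingEnd ℂ) h
  rw [map_mul, Complex.conj_ofReal] at h2
  rw [← h2, ev, map_sum, mul_sum]
  apply sum_congr rfl
  intro j hj
  rw [mem_range] at hj
  rw [map_mul, conj_pow h1, pow_sub₀ z hz0 (hM j (by omega)), map_intCast]
  ring

theorem int_of_unit (hz : Transcendental ℤ z) (h1 : ‖z‖ = 1) (he : StrictMono e)
    (hA : ∀ a k b, a < k → k < b → b ≤ K → e a + e b ≠ 2 * e k)
    {c : ℤ[X]} {t : ℝ} {k : ℕ} (hk : k ≤ K) (h : ev z K e c = t * z ^ (e k)) :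
    ∃ m : ℤ, t = m := by
  have hz0 : z ≠ 0 := by
    intro h0; rw [h0] at h1; simp at h1
  have hmono : ∀ j ≤ K, e j ≤ e K := fun j hj => he.monotone hj
  have hr := reflect (s := 2 * e k) h1 h (e K) (fun j hj => le_trans (hmono j hj) (by omega))
  have hl : ∑ j ∈ range (K + 1), (c.coeff j : ℂ) * z ^ (e K + e j) = z ^ (e K) * (t * z ^ (e k)) := by
    rw [← h, ev, mul_sum]
    apply sum_congr rfl
    intro j _
    rw [pow_add]; ring
  have heq : ∑ j ∈ range (K + 1), (c.coeff j : ℂ) * z ^ (e K + e j) =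
      ∑ j ∈ range (K + 1), (c.coeff j : ℂ) * z ^ (e K + 2 * e k - e j) := by
    rw [hl, hr, conj_pow h1, pow_add, two_mul, pow_add]
    have : z ^ (e k) ≠ 0 := pow_ne_zero _ hz0
    field_simp
  have hzero : ∀ i, i ∈ range (K + 1) → i ≠ k → c.coeff i = 0 := by
    intro i hi hik
    rw [tr_coeff hz (fun i _ j _ hij => he.injective (by omega)) heq hi]
    apply sum_eq_zero
    intro j hj
    rw [mem_range] at hi hj
    rw [if_neg]
    intro hji
    have hj' := hmono j (by omega)
    have hsum : e i + e j = 2 * e k := by omega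
    rcases lt_or_gt_of_ne hik with hlt | hgt
    · have : e i < e k := he hlt
      have hkj : k < j := he.lt_iff_lt.mp (by omega)
      exact hA i k j hlt hkj (by omega) hsum
    · have : e k < e i := he hgt
      have hkj : j < k := he.lt_iff_lt.mp (by omega)
      exact hA j k i hkj hgt (by omega) (by omega)
  have hev : ev z K e c = (c.coeff k : ℂ) * z ^ (e k) := by
    rw [ev, sum_eq_single k]
    · intro j hj hjk
      rw [hzero j hj hjk]; simp
    · intro h; exact absurd (mem_range.mpr (by omega)) h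
  refine ⟨c.coeff k, ?_⟩
  rw [hev] at h
  have := mul_right_cancel₀ (pow_ne_zero _ hz0) h
  exact_mod_cast this.symm

theorem int_of_diag (hz : Transcendental ℤ z) (h1 : ‖z‖ = 1) (he : StrictMono e)
    (hB : ∀ a k b, a < k → k + 1 < b → b ≤ K → e a + e b ≠ e k + e (k + 1))
    {c : ℤ[X]} {t : ℝ} {k : ℕ} (hk : k + 1 ≤ K)
    (h : ev z K e c = t * (z ^ (e k) - z ^ (e (k + 1)))) :
    ∃ m : ℤ, t = m := by
  have hz0 : z ≠ 0 := by
    intro h0; rw [h0] at h1; simp at h1
  have hmono : ∀ j ≤ K, e j ≤ e K := fun j hj => he.monotone hj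
  have hr := reflect (s := e k + e (k + 1)) h1 h (e K)
    (fun j hj => le_trans (hmono j hj) (by omega))
  have hl : ∑ j ∈ range (K + 1), (c.coeff j : ℂ) * z ^ (e K + e j) =
      z ^ (e K) * (t * (z ^ (e k) - z ^ (e (k + 1)))) := by
    rw [← h, ev, mul_sum]
    apply sum_congr rfl
    intro j _
    rw [pow_add]; ring
  have heq : ∑ j ∈ range (K + 1), (c.coeff j : ℂ) * z ^ (e K + e j) =
      ∑ j ∈ range (K + 1), ((-c.coeff j : ℤ) : ℂ) * z ^ (e K + (e k + e (k + 1)) - e j) := by
    have : ∑ j ∈ range (K + 1), ((-c.coeff j : ℤ) : ℂ) * z ^ (e K + (e k + e (k + 1)) - e j) =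
        -∑ j ∈ range (K + 1), (c.coeff j : ℂ) * z ^ (e K + (e k + e (k + 1)) - e j) := by
      rw [← sum_neg_distrib]
      apply sum_congr rfl
      intro j _
      push_cast; ring
    rw [this, hl, hr, map_sub, conj_pow h1, conj_pow h1, pow_add, pow_add]
    have h2 : z ^ (e k) ≠ 0 := pow_ne_zero _ hz0
    have h3 : z ^ (e (k + 1)) ≠ 0 := pow_ne_zero _ hz0
    field_simp
    ring
  have hinj : ∀ i ∈ range (K + 1), ∀ j ∈ range (K + 1), e K + e i = e K + e j → i = j :=
    fun i _ j _ hij => he.injective (by omega)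
  have hzero : ∀ i, i ∈ range (K + 1) → i ≠ k → i ≠ k + 1 → c.coeff i = 0 := by
    intro i hi hik hik1
    rw [tr_coeff hz hinj heq hi]
    apply sum_eq_zero
    intro j hj
    rw [mem_range] at hi hj
    rw [if_neg]
    intro hji
    have hj' := hmono j (by omega)
    have hsum : e i + e j = e k + e (k + 1) := by omega
    rcases lt_or_gt_of_ne hik with hlt | hgt
    · have : e i < e k := he hlt
      have hkj : k + 1 < j := he.lt_iff_lt.mp (by omega)
      exact hB i k j hlt hkj (by omega) hsum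
    · have hgt' : k + 1 < i := by omega
      have : e (k + 1) < e i := he hgt'
      have hkj : j < k := he.lt_iff_lt.mp (by omega)
      exact hB j k i hkj hgt' (by omega) (by omega)
  have hck : c.coeff k = -c.coeff (k + 1) := by
    rw [tr_coeff hz hinj heq (mem_range.mpr (by omega : k < K + 1))]
    rw [sum_eq_single (k + 1)]
    · rw [if_pos]; omega
    · intro j hj hjk
      rw [if_neg]
      intro hji
      rw [mem_range] at hj
      have hj' := hmono j (by omega)
      exact hjk (he.injective (by omega))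
    · intro h; exact absurd (mem_range.mpr (by omega)) h
  have hev : ev z K e c = (c.coeff k : ℂ) * (z ^ (e k) - z ^ (e (k + 1))) := by
    have h2 : ev z K e c = (c.coeff k : ℂ) * z ^ (e k) +
        (c.coeff (k + 1) : ℂ) * z ^ (e (k + 1)) := by
      rw [ev, ← sum_subset (s₁ := {k, k + 1})]
      · rw [sum_pair (by omega)]
      · intro x hx
        simp only [mem_insert, mem_singleton] at hx
        rw [mem_range]; omega
      · intro x hx hx'
        simp only [mem_insert, mem_singleton, not_or] at hx'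
        rw [hzero x hx hx'.1 hx'.2]; simp
    have h3 : c.coeff (k + 1) = -c.coeff k := by omega
    rw [h2, h3]; push_cast; ring
  have hne : z ^ (e k) - z ^ (e (k + 1)) ≠ 0 := by
    intro h0
    have h2 : ev z K e (X ^ k - X ^ (k + 1)) = 0 := by
      rw [ev_sub, ev_X (by omega), ev_X hk]; exact h0
    have h3 := ev_inj hz he (K := K) (c := X ^ k - X ^ (k + 1)) ?_ h2
    · have h4 := congrArg (fun p => coeff p k) h3
      simp [coeff_X_pow] at h4
    · refine (natDegree_sub_le _ _).trans ?_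
      rw [natDegree_X_pow, natDegree_X_pow]
      omega
  refine ⟨c.coeff k, ?_⟩
  rw [hev] at h
  have := mul_right_cancel₀ hne h
  exact_mod_cast this.symm

end

theorem exists_transc_real : ∃ l : ℝ, 0 < l ∧ l < 2 ∧ Transcendental ℚ l := by
  have hL : Transcendental ℚ (liouvilleNumber (2 : ℝ)) := by
    have := transcendental_liouvilleNumber (m := 2) le_rfl
    intro h
    apply this
    have h' : IsAlgebraic ℤ (liouvilleNumber (2 : ℝ)) :=
      (IsFractionRing.isAlgebraic_iff ℤ ℚ ℝ).mpr h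
    exact_mod_cast h'
  have hf : Transcendental ℚ (Int.fract (liouvilleNumber (2 : ℝ))) := by
    intro h
    apply hL
    have h2 : IsAlgebraic ℚ ((⌊liouvilleNumber (2 : ℝ)⌋ : ℤ) : ℝ) := isAlgebraic_intCast _
    have := h.add h2
    rwa [Int.fract_add_floor] at this
  refine ⟨_, lt_of_le_of_ne (Int.fract_nonneg _) ?_, lt_trans (Int.fract_lt_one _) (by norm_num), hf⟩
  intro h0
  rw [← h0] at hf
  exact hf isAlgebraic_zero

/-- **Non-degenerate drawings with at most eleven lengths.** -/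
theorem draw_eleven {V : Type*} [Finite V] (G : SimpleGraph V) (ord : V → ℕ)
    (hord : Function.Injective ord)
    (hc : ∀ a b c d, ord a < ord b → ord b < ord c → ord c < ord d → G.Adj a c → ¬ G.Adj b d) :
    ∃ (p : V → EuclideanSpace ℝ (Fin 2)) (len : Fin 11 → ℝ), Function.Injective p ∧
      (∀ u v w, G.Adj u v → p w ∉ openSegment ℝ (p u) (p v)) ∧
      (∀ u v, G.Adj u v → ∃ i, dist (p u) (p v) = len i) := by
  obtain ⟨f, finj, fok⟩ := exists_poly G ord hord hc
  obtain ⟨K, hK⟩ : ∃ K, ∀ v, (f v).natDegree ≤ K := by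
    have : (Set.range (fun v => (f v).natDegree)).Finite := Set.finite_range _
    obtain ⟨K, hK⟩ := this.bddAbove
    exact ⟨K, fun v => hK ⟨v, rfl⟩⟩
  have hdeg : ∀ u v, (f u - f v).natDegree ≤ K := fun u v =>
    (natDegree_sub_le _ _).trans (max_le (hK u) (hK v))
  obtain ⟨B, e, he, hgap, hA, hB⟩ := Gap.exists_seq K
  obtain ⟨l, hl0, hl2, hl⟩ := exists_transc_real
  obtain ⟨z, hz1, -, hz⟩ := exists_z hl0 hl2 hl
  let φ := Complex.orthonormalBasisOneI.repr
  -- the possible differences along an edge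
  have hdiff : ∀ u v, G.Adj u v → ∃ k : ℕ,
      (k ≤ K ∧ (f v - f u = X ^ k ∨ f v - f u = -X ^ k)) ∨
      (k + 1 ≤ K ∧ (f v - f u = X ^ k - X ^ (k + 1) ∨ f v - f u = -(X ^ k - X ^ (k + 1)))) := by
    intro u v huv
    have hmul : ∀ k : ℕ, (X ^ k * (1 - X) : ℤ[X]) = X ^ k - X ^ (k + 1) := by
      intro k; ring
    have hd2 : ∀ k : ℕ, (X ^ k - X ^ (k + 1) : ℤ[X]).natDegree = k + 1 := by
      intro k
      rw [natDegree_sub_eq_right_of_natDegree_lt]
      · exact natDegree_X_pow _
      · rw [natDegree_X_pow, natDegree_X_pow]; omega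
    obtain ⟨k, h | h | h | h⟩ := fok u v huv
    · refine ⟨k, Or.inl ⟨?_, Or.inl h⟩⟩
      have := hdeg v u
      rwa [h, natDegree_X_pow] at this
    · refine ⟨k, Or.inl ⟨?_, Or.inr h⟩⟩
      have := hdeg v u
      rwa [h, natDegree_neg, natDegree_X_pow] at this
    · rw [hmul] at h
      refine ⟨k, Or.inr ⟨?_, Or.inl h⟩⟩
      have := hdeg v u
      rwa [h, hd2] at this
    · rw [hmul] at h
      refine ⟨k, Or.inr ⟨?_, Or.inr h⟩⟩
      have := hdeg v u
      rwa [h, natDegree_neg, hd2] at this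
  refine ⟨fun v => φ (ev z K e (f v)),
    fun i => if i.val = 10 then 1 else ‖1 - z ^ (B ^ i.val)‖, ?_, ?_, ?_⟩
  · intro u v huv
    have h1 := φ.injective huv
    have h2 : ev z K e (f u - f v) = 0 := by rw [ev_sub, h1, sub_self]
    exact finj (sub_eq_zero.mp (ev_inj hz he (hdeg u v) h2))
  · intro u v w huv hw
    obtain ⟨a, b, ha, hb, hab, hw'⟩ := hw
    simp only at hw'
    have h1 : φ ((a : ℂ) * ev z K e (f u) + (b : ℂ) * ev z K e (f v)) =
        φ (ev z K e (f w)) := by
      rw [← hw', map_add]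
      congr 1
      · rw [← Complex.real_smul, map_smul]
      · rw [← Complex.real_smul, map_smul]
    have h2 := φ.injective h1
    have ha' : (a : ℂ) = 1 - b := by
      have : a = 1 - b := by linarith
      rw [this]; push_cast; ring
    have h3 : ev z K e (f w - f u) = (b : ℂ) * ev z K e (f v - f u) := by
      rw [ev_sub, ev_sub, ← h2, ha']; ring
    have hint : ∀ m : ℤ, b ≠ m := by
      intro m hm
      rw [hm] at hb
      have h4 : (m : ℝ) < 1 := by rw [← hm]; linarith
      have h5 : 0 < m := by exact_mod_cast hb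
      have h6 : m < 1 := by exact_mod_cast h4
      omega
    obtain ⟨k, ⟨hk, h | h⟩ | ⟨hk, h | h⟩⟩ := hdiff u v huv
    · rw [h, ev_X hk] at h3
      obtain ⟨m, hm⟩ := int_of_unit hz hz1 he hA hk h3
      exact hint m hm
    · rw [h, ev_neg, ev_X hk] at h3
      have h4 : ev z K e (f w - f u) = ((-b : ℝ) : ℂ) * z ^ (e k) := by
        rw [h3]; push_cast; ring
      obtain ⟨m, hm⟩ := int_of_unit hz hz1 he hA hk h4
      exact hint (-m) (by push_cast; linarith)
    · rw [h, ev_sub (X ^ k) (X ^ (k + 1)), ev_X (by omega), ev_X hk] at h3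
      obtain ⟨m, hm⟩ := int_of_diag hz hz1 he hB hk h3
      exact hint m hm
    · rw [h, ev_neg, ev_sub (X ^ k) (X ^ (k + 1)), ev_X (by omega), ev_X hk] at h3
      have h4 : ev z K e (f w - f u) = ((-b : ℝ) : ℂ) * (z ^ (e k) - z ^ (e (k + 1))) := by
        rw [h3]; push_cast; ring
      obtain ⟨m, hm⟩ := int_of_diag hz hz1 he hB hk h4
      exact hint (-m) (by push_cast; linarith)
  · intro u v huv
    have hd : dist (φ (ev z K e (f u))) (φ (ev z K e (f v))) = ‖ev z K e (f v - f u)‖ := by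
      rw [φ.dist_map, dist_comm, dist_eq_norm, ev_sub]
    have hdg : ∀ k, ∃ g, g < 10 ∧ ‖z ^ (e k) - z ^ (e (k + 1))‖ = ‖1 - z ^ (B ^ g)‖ := by
      intro k
      obtain ⟨g, hg, h⟩ := hgap k
      refine ⟨g, hg, ?_⟩
      have : z ^ (e k) - z ^ (e (k + 1)) = z ^ (e k) * (1 - z ^ (B ^ g)) := by
        rw [h, pow_add]; ring
      rw [this, norm_mul, norm_pow, hz1, one_pow, one_mul]
    obtain ⟨k, ⟨hk, h | h⟩ | ⟨hk, h | h⟩⟩ := hdiff u v huv
    · refine ⟨⟨10, by norm_num⟩, ?_⟩
      simp only [hd, h, ev_X hk, if_true, norm_pow, hz1, one_pow]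
    · refine ⟨⟨10, by norm_num⟩, ?_⟩
      simp only [hd, h, ev_neg, ev_X hk, if_true, norm_neg, norm_pow, hz1, one_pow]
    · obtain ⟨g, hg, hgg⟩ := hdg k
      refine ⟨⟨g, by omega⟩, ?_⟩
      have hg' : ¬ g = 10 := by omega
      simp only [hd, h, ev_sub, ev_X hk, ev_X (show k ≤ K by omega), hg', if_false, hgg]
    · obtain ⟨g, hg, hgg⟩ := hdg k
      refine ⟨⟨g, by omega⟩, ?_⟩
      have hg' : ¬ g = 10 := by omega
      simp only [hd, h, ev_neg, ev_sub, ev_X hk, ev_X (show k ≤ K by omega), hg', if_false,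
        norm_neg, hgg]

end Pool.Agent.R578.OP
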