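import Mathlib

set_option autoImplicit false

open Pointwise

namespace Pool.Agent.R578.SemiFact

variable {S : Type*} [Semigroup S]

/-- pairs with product `x` -/
def fct (x : S) : Set (S × S) := {p | p.1 * p.2 = x}

/-- no infinite matching of factorisations -/
def P1 (S : Type*) [Semigroup S] : Prop :=
  ∀ (x : S) (a b : ℕ → S), Function.Injective a → Function.Injective b → ¬ ∀ n, a n * b n = x

/-- infinite rows and columns of factorisations sit at square roots -/
def P2 (S : Type*) [Semigroup S] : Prop :=
  ∀ c x : S, ({b : S | c * b = x}.Infinite → c * c = x) ∧ ({b : S | b * c = x}.Infinite → c * c = x)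

/-- the local criterion -/
def Loc (S : Type*) [Semigroup S] : Prop :=
  ∀ x : S, ∃ C : Set S, C.Finite ∧ (∀ c ∈ C, c * c = x) ∧
    {p : S × S | p.1 * p.2 = x ∧ p.1 ∉ C ∧ p.2 ∉ C}.Finite

theorem infinite_of_inj {α : Type*} {s : Set α} (f : ℕ → α) (hf : Function.Injective f)
    (h : ∀ n, f n ∈ s) : s.Infinite :=
  Set.infinite_of_injective_forall_mem hf h

theorem exists_inj {α : Type*} {s : Set α} (h : s.Infinite) :
    ∃ f : ℕ → α, Function.Injective f ∧ ∀ n, f n ∈ s :=
  ⟨fun n => (h.natEmbedding s n : α), fun _ _ e => (h.natEmbedding s).injective (Subtype.ext e),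
    fun n => (h.natEmbedding s n).2⟩

/-- a sequence either takes infinitely many values along an infinite index set or is constant on an
infinite subset of it -/
theorem dichotomy {α : Type*} (N : Set ℕ) (hN : N.Infinite) (f : ℕ → α) :
    (f '' N).Infinite ∨ ∃ y, {n ∈ N | f n = y}.Infinite := by
  by_contra hcon
  push Not at hcon
  obtain ⟨h1, h2⟩ := hcon
  apply hN
  refine (h1.biUnion (t := fun y => {n ∈ N | f n = y}) (fun y _ => h2 y)).subset ?_
  intro n hn
  simp only [Set.mem_iUnion, exists_prop]
  exact ⟨f n, ⟨n, hn, rfl⟩, hn, rfl⟩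

theorem P1_of_Loc (h : Loc S) : P1 S := by
  intro x a b ha hb hab
  obtain ⟨C, hC, -, hfin⟩ := h x
  have e1 : {n | a n ∈ C}.Finite := hC.preimage ha.injOn
  have e2 : {n | b n ∈ C}.Finite := hC.preimage hb.injOn
  have e3 : {n | a n ∉ C ∧ b n ∉ C}.Finite := by
    have := hfin.preimage (f := fun n => (a n, b n)) (fun _ _ _ _ e => ha (congrArg Prod.fst e))
    refine this.subset ?_
    intro n hn
    exact ⟨hab n, hn.1, hn.2⟩
  have e4 : (Set.univ : Set ℕ).Finite := by
    refine ((e1.union e2).union e3).subset ?_
    intro n _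
    by_cases h1 : a n ∈ C
    · exact Or.inl (Or.inl h1)
    by_cases h2 : b n ∈ C
    · exact Or.inl (Or.inr h2)
    exact Or.inr ⟨h1, h2⟩
  exact Set.infinite_univ e4

theorem P2_of_Loc (h : Loc S) : P2 S := by
  intro c x
  obtain ⟨C, hC, hsq, hfin⟩ := h x
  constructor
  · intro hinf
    by_contra hne
    have hc : c ∉ C := fun hc => hne (hsq c hc)
    apply hinf
    have e3 : {b | c * b = x ∧ b ∉ C}.Finite := by
      have := hfin.preimage (f := fun b => (c, b)) (fun _ _ _ _ e => congrArg Prod.snd e)
      refine this.subset ?_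
      intro n hn
      exact ⟨hn.1, hc, hn.2⟩
    refine (hC.union e3).subset ?_
    intro b hb
    by_cases h1 : b ∈ C
    · exact Or.inl h1
    · exact Or.inr ⟨hb, h1⟩
  · intro hinf
    by_contra hne
    have hc : c ∉ C := fun hc => hne (hsq c hc)
    apply hinf
    have e3 : {b | b * c = x ∧ b ∉ C}.Finite := by
      have := hfin.preimage (f := fun b => (b, c)) (fun _ _ _ _ e => congrArg Prod.fst e)
      refine this.subset ?_
      intro n hn
      exact ⟨hn.1, hn.2, hc⟩
    refine (hC.union e3).subset ?_
    intro b hb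
    by_cases h1 : b ∈ C
    · exact Or.inl h1
    · exact Or.inr ⟨hb, h1⟩

/-- finite vertex cover -/
theorem exists_cover (h1 : P1 S) (x : S) :
    ∃ D : Set S, D.Finite ∧ ∀ a b, a * b = x → a ∈ D ∨ b ∈ D := by
  classical
  by_contra hcon
  push Not at hcon
  -- choose pairs avoiding any finite set
  have hch : ∀ D : Finset S, ∃ p : S × S, p.1 * p.2 = x ∧ p.1 ∉ D ∧ p.2 ∉ D := by
    intro D
    obtain ⟨a, b, h, ha, hb⟩ := hcon D D.finite_toSet
    exact ⟨(a, b), h, by simpa using ha, by simpa using hb⟩
  choose pk hpk using hch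
  let F : ℕ → Finset S := fun n => Nat.rec ∅ (fun _ D => insert (pk D).1 (insert (pk D).2 D)) n
  have hF : ∀ n, F (n + 1) = insert (pk (F n)).1 (insert (pk (F n)).2 (F n)) := fun n => rfl
  have hmono : ∀ m n, m ≤ n → F m ⊆ F n := by
    intro m n hmn
    induction n, hmn using Nat.le_induction with
    | base => exact Finset.Subset.refl _
    | succ n _ ih =>
      rw [hF]
      exact ih.trans ((Finset.subset_insert _ _).trans (Finset.subset_insert _ _))
  refine h1 x (fun n => (pk (F n)).1) (fun n => (pk (F n)).2) ?_ ?_ (fun n => (hpk (F n)).1)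
  · have key : ∀ m n, m < n → (pk (F m)).1 ≠ (pk (F n)).1 := by
      intro m n hmn he
      have h2 := hmono (m + 1) n hmn
      apply (hpk (F n)).2.1
      rw [← he]
      apply h2
      rw [hF]
      exact Finset.mem_insert_self _ _
    intro m n he
    rcases lt_trichotomy m n with h | h | h
    · exact absurd he (key m n h)
    · exact h
    · exact absurd he.symm (key n m h)
  · have key : ∀ m n, m < n → (pk (F m)).2 ≠ (pk (F n)).2 := by
      intro m n hmn he
      have h2 := hmono (m + 1) n hmn
      apply (hpk (F n)).2.2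
      rw [← he]
      apply h2
      rw [hF]
      exact Finset.mem_insert_of_mem (Finset.mem_insert_self _ _)
    intro m n he
    rcases lt_trichotomy m n with h | h | h
    · exact absurd he (key m n h)
    · exact h
    · exact absurd he.symm (key n m h)

theorem Loc_of (h1 : P1 S) (h2 : P2 S) : Loc S := by
  intro x
  obtain ⟨D, hD, hcov⟩ := exists_cover h1 x
  refine ⟨{c ∈ D | c * c = x}, hD.subset (Set.sep_subset _ _), fun c hc => hc.2, ?_⟩
  have hfin : (⋃ d ∈ {d ∈ D | d * d ≠ x}, ((fun b => (d, b)) '' {b | d * b = x} ∪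
      (fun a => (a, d)) '' {a | a * d = x})).Finite := by
    refine (hD.subset (Set.sep_subset _ _)).biUnion ?_
    intro d hd
    refine Set.Finite.union (Set.Finite.image _ ?_) (Set.Finite.image _ ?_)
    · by_contra hinf
      exact hd.2 ((h2 d x).1 hinf)
    · by_contra hinf
      exact hd.2 ((h2 d x).2 hinf)
  refine hfin.subset ?_
  rintro ⟨a, b⟩ ⟨hab, ha, hb⟩
  simp only [Set.mem_iUnion]
  rcases hcov a b hab with h | h
  · refine ⟨a, ⟨h, fun e => ha ⟨h, e⟩⟩, Or.inl ⟨b, hab, rfl⟩⟩
  · refine ⟨b, ⟨h, fun e => hb ⟨h, e⟩⟩, Or.inr ⟨a, hab, rfl⟩⟩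

section

variable (h1 : P1 S) (h2 : P2 S)

include h1 h2

theorem cube_left (c x : S) (h : {b : S | c * b = x}.Infinite) : c * c = x ∧ c * c * c = c * c := by
  have hx := (h2 c x).1 h
  refine ⟨hx, ?_⟩
  subst hx
  obtain ⟨b, hb, hbm⟩ := exists_inj h
  have hbm' : ∀ n, c * b n = c * c := hbm
  have hy : ∀ n, c * (b (2 * n) * b (2 * n + 1)) = c * c * c := by
    intro n
    rw [← mul_assoc, hbm', mul_assoc, hbm', ← mul_assoc]
  rcases dichotomy Set.univ Set.infinite_univ (fun n => b (2 * n) * b (2 * n + 1)) with hd | ⟨y, hd⟩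
  · have h3 : {z : S | c * z = c * c * c}.Infinite := by
      refine hd.mono ?_
      rintro _ ⟨n, -, rfl⟩
      exact hy n
    exact ((h2 c _).1 h3).symm
  · exfalso
    obtain ⟨k, hk, hkm⟩ := exists_inj hd
    refine h1 y (fun n => b (2 * k n)) (fun n => b (2 * k n + 1)) ?_ ?_ (fun n => (hkm n).2)
    · intro m n e
      have := hb e
      exact hk (by omega)
    · intro m n e
      have := hb e
      exact hk (by omega)

theorem cube_right (c x : S) (h : {b : S | b * c = x}.Infinite) : c * c = x ∧ c * c * c = c * c := by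
  have hx := (h2 c x).2 h
  refine ⟨hx, ?_⟩
  subst hx
  obtain ⟨b, hb, hbm⟩ := exists_inj h
  have hbm' : ∀ n, b n * c = c * c := hbm
  have hy : ∀ n, (b (2 * n) * b (2 * n + 1)) * c = c * c * c := by
    intro n
    rw [mul_assoc, hbm', ← mul_assoc, hbm']
  rcases dichotomy Set.univ Set.infinite_univ (fun n => b (2 * n) * b (2 * n + 1)) with hd | ⟨y, hd⟩
  · have h3 : {z : S | z * c = c * c * c}.Infinite := by
      refine hd.mono ?_
      rintro _ ⟨n, -, rfl⟩
      exact hy n
    exact ((h2 c _).2 h3).symm
  · exfalso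
    obtain ⟨k, hk, hkm⟩ := exists_inj hd
    refine h1 y (fun n => b (2 * k n)) (fun n => b (2 * k n + 1)) ?_ ?_ (fun n => (hkm n).2)
    · intro m n e
      have := hb e
      exact hk (by omega)
    · intro m n e
      have := hb e
      exact hk (by omega)

omit h2 in
/-- an infinite row or column -/
theorem row_or_col (x : S) (h : (fct x).Infinite) :
    (∃ c, {b : S | c * b = x}.Infinite) ∨ (∃ c, {b : S | b * c = x}.Infinite) := by
  obtain ⟨D, hD, hcov⟩ := exists_cover h1 x
  by_contra hcon
  push Not at hcon
  obtain ⟨h3, h4⟩ := hcon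
  apply h
  have hfin : (⋃ d ∈ D, ((fun b => (d, b)) '' {b | d * b = x} ∪
      (fun a => (a, d)) '' {a | a * d = x})).Finite := by
    refine hD.biUnion ?_
    intro d hd
    exact Set.Finite.union (Set.Finite.image _ (h3 d)) (Set.Finite.image _ (h4 d))
  refine hfin.subset ?_
  rintro ⟨a, b⟩ hab
  simp only [Set.mem_iUnion]
  rcases hcov a b hab with h | h
  · exact ⟨a, h, Or.inl ⟨b, hab, rfl⟩⟩
  · exact ⟨b, h, Or.inr ⟨a, hab, rfl⟩⟩

/-- elements with infinitely many factorisations are idempotents absorbing infinitely many elements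
on one side -/
theorem idem_absorb (x : S) (h : (fct x).Infinite) :
    x * x = x ∧ ({b : S | x * b = x}.Infinite ∨ {b : S | b * x = x}.Infinite) := by
  rcases row_or_col h1 x h with ⟨c, hc⟩ | ⟨c, hc⟩
  · obtain ⟨h3, h4⟩ := cube_left h1 h2 c x hc
    have h5 : x * x = x := by
      rw [← h3]
      calc c * c * (c * c) = (c * c * c) * c := by simp only [mul_assoc]
        _ = c * c := by rw [h4, h4]
    refine ⟨h5, Or.inl (hc.mono ?_)⟩
    intro b hb
    have hb' : c * b = x := hb
    show x * b = x
    calc x * b = c * (c * b) := by rw [← h3, mul_assoc]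
      _ = c * c * c := by rw [hb', ← h3, mul_assoc]
      _ = x := by rw [h4, h3]
  · obtain ⟨h3, h4⟩ := cube_right h1 h2 c x hc
    have h5 : x * x = x := by
      rw [← h3]
      calc c * c * (c * c) = (c * c * c) * c := by simp only [mul_assoc]
        _ = c * c := by rw [h4, h4]
    refine ⟨h5, Or.inr (hc.mono ?_)⟩
    intro b hb
    have hb' : b * c = x := hb
    show b * x = x
    calc b * x = (b * c) * c := by rw [← h3, mul_assoc]
      _ = c * c * c := by rw [hb', ← h3]
      _ = x := by rw [h4, h3]

omit h1 h2 in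
theorem fct_inf_left (x : S) (h : {b : S | x * b = x}.Infinite) : (fct x).Infinite := by
  have := h.image (f := fun b => (x, b)) (fun _ _ _ _ e => congrArg Prod.snd e)
  refine this.mono ?_
  rintro _ ⟨b, hb, rfl⟩
  exact hb

omit h1 h2 in
theorem fct_inf_right (x : S) (h : {b : S | b * x = x}.Infinite) : (fct x).Infinite := by
  have := h.image (f := fun b => (b, x)) (fun _ _ _ _ e => congrArg Prod.fst e)
  refine this.mono ?_
  rintro _ ⟨b, hb, rfl⟩
  exact hb

theorem ideal_left (x s : S) (h : (fct x).Infinite) : (fct (s * x)).Infinite := by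
  obtain ⟨hxx, hb | hb⟩ := idem_absorb h1 h2 x h
  · apply fct_inf_left
    refine hb.mono ?_
    intro b hb'
    show s * x * b = s * x
    rw [mul_assoc, show x * b = x from hb']
  · obtain ⟨b, hbi, hbm⟩ := exists_inj hb
    have hbm' : ∀ n, b n * x = x := hbm
    have h3 : ∀ n, (s * x * b n) * x = s * x := by
      intro n
      rw [mul_assoc, hbm', mul_assoc, hxx]
    rcases dichotomy Set.univ Set.infinite_univ (fun n => s * x * b n) with hd | ⟨y, hd⟩
    · have h4 : {z : S | z * x = s * x}.Infinite := by
        refine hd.mono ?_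
        rintro _ ⟨n, -, rfl⟩
        exact h3 n
      have h5 := (h2 x _).2 h4
      rw [← h5, hxx]
      exact h
    · have h4 : {z : S | (s * x) * z = y}.Infinite := by
        have := hd.image hbi.injOn
        refine this.mono ?_
        rintro _ ⟨n, hn, rfl⟩
        exact hn.2
      have h5 : s * x * (s * x) = y := (h2 (s * x) y).1 h4
      obtain ⟨n, hn⟩ := hd.nonempty
      have h6 : s * x = s * x * (s * x) := by
        have e1 := h3 n
        rw [hn.2, ← h5] at e1
        calc s * x = s * x * (s * x) * x := e1.symm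
          _ = s * x * (s * x) := by rw [mul_assoc, mul_assoc s x x, hxx]
      apply fct_inf_left
      rw [← h6] at h5
      rw [← h5] at h4
      exact h4

theorem ideal_right (x s : S) (h : (fct x).Infinite) : (fct (x * s)).Infinite := by
  obtain ⟨hxx, hb | hb⟩ := idem_absorb h1 h2 x h
  · obtain ⟨b, hbi, hbm⟩ := exists_inj hb
    have hbm' : ∀ n, x * b n = x := hbm
    have h3 : ∀ n, x * (b n * (x * s)) = x * s := by
      intro n
      rw [← mul_assoc, hbm', ← mul_assoc, hxx]
    rcases dichotomy Set.univ Set.infinite_univ (fun n => b n * (x * s)) with hd | ⟨y, hd⟩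
    · have h4 : {z : S | x * z = x * s}.Infinite := by
        refine hd.mono ?_
        rintro _ ⟨n, -, rfl⟩
        exact h3 n
      have h5 := (h2 x _).1 h4
      rw [← h5, hxx]
      exact h
    · have h4 : {z : S | z * (x * s) = y}.Infinite := by
        have := hd.image hbi.injOn
        refine this.mono ?_
        rintro _ ⟨n, hn, rfl⟩
        exact hn.2
      have h5 : x * s * (x * s) = y := (h2 (x * s) y).2 h4
      obtain ⟨n, hn⟩ := hd.nonempty
      have h6 : x * s = x * s * (x * s) := by
        have e1 := h3 n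
        rw [hn.2, ← h5] at e1
        calc x * s = x * (x * s * (x * s)) := e1.symm
          _ = x * s * (x * s) := by rw [← mul_assoc x (x * s), ← mul_assoc x x s, hxx]
      apply fct_inf_right
      rw [← h6] at h5
      rw [← h5] at h4
      exact h4
  · apply fct_inf_right
    refine hb.mono ?_
    intro b hb'
    show b * (x * s) = x * s
    rw [← mul_assoc, show b * x = x from hb']

/-- products of `n + 1` elements of `A` -/
def PP (A : Set S) : ℕ → Set S
  | 0 => A
  | n + 1 => PP A n * A

omit h1 h2 in
theorem PP_succ' (A : Set S) (n : ℕ) : PP A (n + 1) = A * PP A n := by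
  induction n with
  | zero => rfl
  | succ n ih =>
    show PP A (n + 1) * A = A * (PP A n * A)
    rw [ih, mul_assoc]

omit h1 h2 in
theorem PP_mono {A B : Set S} (h : A ⊆ B) (n : ℕ) : PP A n ⊆ PP B n := by
  induction n with
  | zero => exact h
  | succ n ih => exact Set.mul_subset_mul ih h

omit h1 h2 in
theorem pow_mem (A : Set S) (d : S) (hd : d ∈ A) (h : d * d * d = d * d) (n : ℕ) :
    d * d ∈ PP A (n + 1) := by
  induction n with
  | zero => exact Set.mul_mem_mul hd hd
  | succ n ih =>
    show d * d ∈ PP A (n + 1) * A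
    rw [← h]
    exact Set.mul_mem_mul ih hd

/-- the main induction -/
theorem inter (A : ℕ → Set S) (hA : ∀ q, A (q + 1) ⊆ A q) (n : ℕ) :
    ∀ x, (∀ q, x ∈ PP (A q) n) → x ∈ PP (⋂ q, A q) n := by
  have hanti : ∀ p q, p ≤ q → A q ⊆ A p := by
    intro p q hpq
    induction q, hpq using Nat.le_induction with
    | base => exact Set.Subset.refl _
    | succ q _ ih => exact (hA q).trans ih
  -- membership for infinitely many indices is membership for all
  have hinf : ∀ (m : ℕ) (z : S) (N : Set ℕ), N.Infinite → (∀ q ∈ N, z ∈ PP (A q) m) →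
      ∀ q, z ∈ PP (A q) m := by
    intro m z N hN hz q
    obtain ⟨q', hq', hlt⟩ := hN.exists_gt q
    exact PP_mono (hanti q q' hlt.le) m (hz q' hq')
  induction n with
  | zero =>
    intro x hx
    exact Set.mem_iInter.mpr hx
  | succ n ih =>
    intro x hx
    have hx' : ∀ q, ∃ y b, y ∈ PP (A q) n ∧ b ∈ A q ∧ y * b = x := by
      intro q
      obtain ⟨y, hy, b, hb, e⟩ := Set.mem_mul.mp (hx q)
      exact ⟨y, b, hy, hb, e⟩
    choose y b hy hb he using hx'
    rcases dichotomy Set.univ Set.infinite_univ y with hdy | ⟨c, hdy⟩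
    · -- infinitely many `y q`
      obtain ⟨N, -, hN⟩ := Set.exists_subset_bijOn (Set.univ : Set ℕ) y
      have hNinf : N.Infinite := by
        intro hfin
        apply hdy
        rw [← hN.image_eq]
        exact hfin.image y
      rcases dichotomy N hNinf b with hdb | ⟨d, hdb⟩
      · exfalso
        obtain ⟨N', hN'sub, hN'⟩ := Set.exists_subset_bijOn N b
        have hN'inf : N'.Infinite := by
          intro hfin
          apply hdb
          rw [← hN'.image_eq]
          exact hfin.image b
        obtain ⟨k, hk, hkm⟩ := exists_inj hN'inf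
        refine h1 x (fun n => y (k n)) (fun n => b (k n)) ?_ ?_ (fun n => he (k n))
        · intro m n e
          exact hk (hN.injOn (hN'sub (hkm m)) (hN'sub (hkm n)) e)
        · intro m n e
          exact hk (hN'.injOn (hkm m) (hkm n) e)
      · have h3 : {z : S | z * d = x}.Infinite := by
          have h4 := hdb.image (f := y) (fun i hi j hj e => hN.injOn hi.1 hj.1 e)
          refine h4.mono ?_
          rintro _ ⟨q, hq, rfl⟩
          show y q * d = x
          rw [← hq.2]
          exact he q
        obtain ⟨h5, h6⟩ := cube_right h1 h2 d x h3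
        have hd : d ∈ ⋂ q, A q := by
          refine Set.mem_iInter.mpr ?_
          exact hinf 0 d _ hdb (fun q hq => by rw [← hq.2]; exact hb q)
        rw [← h5]
        exact pow_mem _ d hd h6 n
    · have hc : c ∈ PP (⋂ q, A q) n := by
        apply ih
        refine hinf n c _ hdy ?_
        intro q hq
        rw [← hq.2]
        exact hy q
      rcases dichotomy _ hdy b with hdb | ⟨d, hdb⟩
      · have h3 : {z : S | c * z = x}.Infinite := by
          refine hdb.mono ?_
          rintro _ ⟨q, hq, rfl⟩
          show c * b q = x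
          rw [← hq.2]
          exact he q
        obtain ⟨h5, h6⟩ := cube_left h1 h2 c x h3
        cases n with
        | zero =>
          rw [← h5]
          exact Set.mul_mem_mul hc hc
        | succ m =>
          have hc' := hc
          rw [PP_succ'] at hc'
          obtain ⟨c1, hc1, z, hz, rfl⟩ := Set.mem_mul.mp hc'
          have h7 : ∀ q ∈ {n | n ∈ Set.univ ∧ y n = c1 * z}, c1 * (z * b q) = x := by
            intro q hq
            rw [← mul_assoc, ← hq.2]
            exact he q
          rcases dichotomy _ hdy (fun q => z * b q) with hdz | ⟨w, hdz⟩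
          · have h8 : {v : S | c1 * v = x}.Infinite := by
              refine hdz.mono ?_
              rintro _ ⟨q, hq, rfl⟩
              exact h7 q hq
            obtain ⟨h9, h10⟩ := cube_left h1 h2 c1 x h8
            rw [← h9]
            exact pow_mem _ c1 hc1 h10 (m + 1)
          · have hw : w ∈ PP (⋂ q, A q) (m + 1) := by
              apply ih
              refine hinf (m + 1) w _ hdz ?_
              intro q hq
              rw [← hq.2]
              exact Set.mul_mem_mul (PP_mono (Set.iInter_subset _ q) m hz) (hb q)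
            obtain ⟨q, hq⟩ := hdz.nonempty
            have h11 : c1 * w = x := by
              rw [← hq.2]
              exact h7 q hq.1
            rw [← h11, PP_succ']
            exact Set.mul_mem_mul hc1 hw
      · have hd : d ∈ ⋂ q, A q := by
          refine Set.mem_iInter.mpr ?_
          exact hinf 0 d _ hdb (fun q hq => by rw [← hq.2]; exact hb q)
        obtain ⟨q, hq⟩ := hdb.nonempty
        have h11 : c * d = x := by
          rw [← hq.2, ← hq.1.2]
          exact he q
        rw [← h11]
        exact Set.mul_mem_mul hc hd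

end

end Pool.Agent.R578.SemiFact
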